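import Pool.Agent.Helper56.Disc.Minors

namespace Pool.Agent.Helper56.Disc

open MvPolynomial Matrix Submodule

variable {n d : ℕ}

/-- The multinomial theorem for linear forms. -/
theorem linform_pow (x : Fin n → ℂ) (e : ℕ) :
    (∑ i, C (x i) * X i) ^ e = form (fun γ : Mon n e =>
      (Nat.multinomial Finset.univ γ.1 : ℂ) * ∏ i, x i ^ γ.1 i) := by
  rw [Finset.sum_pow_eq_sum_piAntidiag]
  unfold form
  symm
  refine Finset.sum_bij (fun (γ : Mon n e) _ => (⇑γ.1 : Fin n → ℕ)) ?_ ?_ ?_ ?_
  · intro γ _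
    rw [Finset.mem_piAntidiag]
    exact ⟨(Finset.mem_finsuppAntidiag.1 γ.2).1, fun _ _ => Finset.mem_univ _⟩
  · intro γ _ γ' _ h
    exact Subtype.ext (DFunLike.coe_injective h)
  · intro g hg
    rw [Finset.mem_piAntidiag] at hg
    refine ⟨⟨Finsupp.equivFunOnFinite.symm g, ?_⟩, Finset.mem_univ _, rfl⟩
    rw [Finset.mem_finsuppAntidiag]
    exact ⟨hg.1, Finset.subset_univ _⟩
  · intro γ _
    rw [monomial_eq, Finsupp.prod_fintype _ _ (by simp)]
    have : ∏ i, (C (x i) * X i : MvPolynomial (Fin n) ℂ) ^ γ.1 i =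
        C (∏ i, x i ^ γ.1 i) * ∏ i, X i ^ γ.1 i := by
      rw [map_prod, ← Finset.prod_mul_distrib]
      apply Finset.prod_congr rfl
      intro i _
      rw [mul_pow, map_pow]
    rw [this, map_mul, map_natCast]
    ring

theorem powerExtends_one (hd : 2 ≤ d) (Δ : MvPolynomial (Mon n d) ℂ)
    (hext : ∀ x : Mon n (n * (d - 2)) → ℂ, ∃ P : MvPolynomial (Mon n d) ℂ,
      ∀ c : Mon n d → ℂ, Nondegenerate (form c) → ∀ v : ℂ,
      form x - C v * hess (form c) ∈ jacIdeal (form c) → eval c P = eval c Δ * v) :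
    PowerExtends Δ 1 := by
  classical
  choose P hP using fun γ : Mon n (n * (d - 2)) => hext (Pi.single γ 1)
  refine ⟨form (fun γ => C (Nat.multinomial Finset.univ γ.1 : ℂ) * P γ), form_isHomogeneous _, ?_⟩
  intro c hc
  choose v hv' using fun γ : Mon n (n * (d - 2)) => (socle_form hd c hc).2 (Pi.single γ 1)
  have hassoc : IsAssociatedForm d (form c) (form (fun γ : Mon n (n * (d - 2)) =>
      (Nat.multinomial Finset.univ γ.1 : ℂ) * v γ)) := by
    refine ⟨form_isHomogeneous _, fun x => ?_⟩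
    rw [linform_pow]
    have e1 : form (fun γ : Mon n (n * (d - 2)) =>
        (Nat.multinomial Finset.univ γ.1 : ℂ) * ∏ i, x i ^ γ.1 i) =
        ∑ γ : Mon n (n * (d - 2)), C ((Nat.multinomial Finset.univ γ.1 : ℂ) *
          ∏ i, x i ^ γ.1 i) * form (Pi.single γ (1 : ℂ)) := by
      unfold form
      apply Finset.sum_congr rfl
      intro γ _
      rw [Finset.mul_sum, Finset.sum_eq_single γ]
      · rw [Pi.single_eq_same, C_mul_monomial, mul_one]
      · intro β _ hβ
        rw [Pi.single_eq_of_ne hβ]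
        simp
      · simp
    have e2 : eval x (form (fun γ : Mon n (n * (d - 2)) =>
        (Nat.multinomial Finset.univ γ.1 : ℂ) * v γ)) =
        ∑ γ : Mon n (n * (d - 2)), ((Nat.multinomial Finset.univ γ.1 : ℂ) *
          ∏ i, x i ^ γ.1 i) * v γ := by
      unfold form
      rw [map_sum]
      apply Finset.sum_congr rfl
      intro γ _
      rw [eval_monomial, Finsupp.prod_fintype _ _ (by simp)]
      ring
    rw [e1, e2, map_sum, Finset.sum_mul, ← Finset.sum_sub_distrib]
    refine Ideal.sum_mem _ fun γ _ => ?_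
    have := Ideal.mul_mem_left _ (C ((Nat.multinomial Finset.univ γ.1 : ℂ) *
          ∏ i, x i ^ γ.1 i)) (hv' γ)
    convert this using 1
    rw [map_mul (C) _ (v γ)]
    ring
  refine ⟨_, hassoc, ?_, ?_⟩
  · intro Ψ hΨ
    apply MvPolynomial.funext
    intro x
    have h1 := hΨ.2 x
    have h2 := hassoc.2 x
    set Φ := form (fun γ : Mon n (n * (d - 2)) =>
      (Nat.multinomial Finset.univ γ.1 : ℂ) * v γ) with hΦ
    have h3 := Ideal.sub_mem _ h2 h1
    have h4 : C (eval x Ψ - eval x Φ) * hess (form c) ∈ jacIdeal (form c) := by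
      convert h3 using 1
      rw [map_sub]
      ring
    by_contra hne
    have hne' : eval x Ψ - eval x Φ ≠ 0 := sub_ne_zero.2 hne
    apply (socle_form hd c hc).1
    have h5 := Ideal.mul_mem_left _ (C (eval x Ψ - eval x Φ)⁻¹) h4
    rw [← mul_assoc, ← map_mul, inv_mul_cancel₀ hne', map_one, one_mul] at h5
    exact h5
  · rw [map_form, pow_one, ← form_smul]
    congr 1
    funext γ
    rw [map_mul, eval_C, hP γ c hc (v γ) (hv' γ)]
    simp only [Pi.smul_apply, smul_eq_mul]
    ring

end Pool.Agent.Helper56.Disc
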