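import Pool.Agent.Helper56.Disc.Koszul

namespace Pool.Agent.Helper56.Disc

open Matrix MvPolynomial

variable {k : Type*} [Field k] {σ : Type*} [Fintype σ] [DecidableEq σ]

theorem det_sub_det_mem {R : Type*} [CommRing R] {σ : Type*} [Fintype σ] [DecidableEq σ]
    (J : Ideal R) (P Q : Matrix σ σ R) (h : ∀ i j, P i j - Q i j ∈ J) : P.det - Q.det ∈ J := by
  rw [← Ideal.Quotient.eq]
  have e1 := RingHom.map_det (Ideal.Quotient.mk J) P
  have e2 := RingHom.map_det (Ideal.Quotient.mk J) Q
  have e3 : (Ideal.Quotient.mk J).mapMatrix P = (Ideal.Quotient.mk J).mapMatrix Q := by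
    ext i j
    simp only [RingHom.mapMatrix_apply, Matrix.map_apply]
    rw [Ideal.Quotient.eq]
    exact h i j
  rw [e3] at e1
  exact e1.trans e2.symm

/-- the difference of the two copies of the variable `j` -/
noncomputable def uu (k : Type*) [Field k] (j : σ) : MvPolynomial σ (MvPolynomial σ k) :=
  C (X j) - X j

theorem koszulExact_uu : KoszulExact (uu (σ := σ) k) := by
  set φ : MvPolynomial σ (MvPolynomial σ k) →ₐ[MvPolynomial σ k]
    MvPolynomial σ (MvPolynomial σ k) := aeval (fun j => C (X j) - X j) with hφ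
  have hX : ∀ j, φ (X j) = C (X j) - X j := fun j => by rw [hφ, aeval_X]
  have hC : ∀ s : MvPolynomial σ k, φ (C s) = C s := fun s => φ.commutes s
  have hinv : φ.comp φ = AlgHom.id _ _ := by
    apply MvPolynomial.algHom_ext
    intro j
    rw [AlgHom.comp_apply, hX, map_sub, hC, hX]
    simp
  refine koszulExact_of_invol (fun j : σ => (X j : MvPolynomial σ (MvPolynomial σ k))) _
    φ.toRingHom ?_ ?_ (koszulExact_X _)
  · intro x
    exact congrArg (fun f : _ →ₐ[_] _ => f x) hinv
  · intro j
    change φ (C (X j) - X j) = X j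
    rw [map_sub, hC, hX]
    ring

theorem exists_divdiff (p : MvPolynomial σ k) : ∃ D : σ → MvPolynomial σ (MvPolynomial σ k),
    C p - map C p = ∑ j, D j * uu k j := by
  have hmem : (C p - map C p : MvPolynomial σ (MvPolynomial σ k)) ∈
      Ideal.span ((uu k : σ → MvPolynomial σ (MvPolynomial σ k)) '' Set.univ) := by
    rw [← Ideal.Quotient.eq]
    set I := Ideal.span ((uu k : σ → MvPolynomial σ (MvPolynomial σ k)) '' Set.univ) with hI
    have h : (Ideal.Quotient.mk I).comp
        (C : MvPolynomial σ k →+* MvPolynomial σ (MvPolynomial σ k)) =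
        (Ideal.Quotient.mk I).comp (map C) := by
      apply MvPolynomial.ringHom_ext
      · intro r
        simp
      · intro j
        simp only [RingHom.comp_apply, map_X]
        rw [Ideal.Quotient.eq]
        exact Ideal.subset_span ⟨j, trivial, rfl⟩
    exact congrArg (fun f : _ →+* _ => f p) h
  obtain ⟨c, _, hc⟩ := exists_coeffs_of_mem_span_image _ _ _ hmem
  exact ⟨c, hc⟩

/-- the Bezoutian of the powers `X l ^ K` -/
noncomputable def thetaW (k : Type*) [Field k] (σ : Type*) [Fintype σ] (K : ℕ) :
    MvPolynomial σ (MvPolynomial σ k) :=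
  ∏ l : σ, ∑ b ∈ Finset.range K, (C (X l)) ^ b * (X l) ^ (K - 1 - b)

theorem bezout (F : σ → MvPolynomial σ k) (K : ℕ) (B : Matrix σ σ (MvPolynomial σ k))
    (hB : ∀ l, (X l) ^ K = ∑ i, B l i * F i) :
    ∃ Θ : MvPolynomial σ (MvPolynomial σ k), thetaW k σ K - map C B.det * Θ ∈
      Ideal.span (Set.range (fun i => (C (F i) : MvPolynomial σ (MvPolynomial σ k)))) ⊔
      Ideal.span (Set.range (fun l : σ => (X l : MvPolynomial σ (MvPolynomial σ k)) ^ K)) := by
  choose D hD using fun i => exists_divdiff (F i)
  choose E hE using fun l i => exists_divdiff (B l i)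
  set J := Ideal.span (Set.range (fun i => (C (F i) : MvPolynomial σ (MvPolynomial σ k)))) ⊔
      Ideal.span (Set.range (fun l : σ => (X l : MvPolynomial σ (MvPolynomial σ k)) ^ K)) with hJ
  have hCF : ∀ i, (C (F i) : MvPolynomial σ (MvPolynomial σ k)) ∈ J := fun i =>
    Ideal.mem_sup_left (Ideal.subset_span ⟨i, rfl⟩)
  have hXK : ∀ l : σ, (X l : MvPolynomial σ (MvPolynomial σ k)) ^ K ∈ J := fun l =>
    Ideal.mem_sup_right (Ideal.subset_span ⟨l, rfl⟩)
  have hCXK : ∀ l : σ, (C (X l) : MvPolynomial σ (MvPolynomial σ k)) ^ K ∈ J := by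
    intro l
    rw [← map_pow, hB l, map_sum]
    refine Ideal.sum_mem _ fun i _ => ?_
    rw [map_mul]
    exact Ideal.mul_mem_left _ _ (hCF i)
  set W : σ → MvPolynomial σ (MvPolynomial σ k) := fun l => C (X l) ^ K - X l ^ K with hW
  set M : Matrix σ σ (MvPolynomial σ (MvPolynomial σ k)) :=
    diagonal (fun l => ∑ b ∈ Finset.range K, (C (X l)) ^ b * (X l) ^ (K - 1 - b)) with hM
  set Bz : Matrix σ σ (MvPolynomial σ (MvPolynomial σ k)) := B.map (map C) with hBz
  set DD : Matrix σ σ (MvPolynomial σ (MvPolynomial σ k)) := Matrix.of D with hDD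
  set M' : Matrix σ σ (MvPolynomial σ (MvPolynomial σ k)) :=
    Bz * DD + Matrix.of (fun l j => ∑ i, E l i j * C (F i)) with hM'
  have h1 : M.mulVec (uu k) = W := by
    funext l
    rw [hM, mulVec_diagonal, hW]
    exact (Commute.all _ _).geom_sum₂_mul K
  have h2 : M'.mulVec (uu k) = W := by
    funext l
    have e1 : ((Bz * DD).mulVec (uu k)) l = ∑ i, map C (B l i) * (C (F i) - map C (F i)) := by
      rw [← mulVec_mulVec]
      simp only [mulVec, dotProduct]
      apply Finset.sum_congr rfl
      intro i _
      rw [hD i]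
      rfl
    have e2 : ((Matrix.of (fun l j => ∑ i, E l i j * C (F i)) :
        Matrix σ σ (MvPolynomial σ (MvPolynomial σ k))).mulVec (uu k)) l =
        ∑ i, (C (B l i) - map C (B l i)) * C (F i) := by
      simp only [mulVec, dotProduct, of_apply, Finset.sum_mul]
      rw [Finset.sum_comm]
      apply Finset.sum_congr rfl
      intro i _
      rw [hE l i, Finset.sum_mul]
      apply Finset.sum_congr rfl
      intro j _
      ring
    rw [hM', add_mulVec, Pi.add_apply, e1, e2, ← Finset.sum_add_distrib]
    have e3 : ∀ i, map C (B l i) * (C (F i) - map C (F i)) + (C (B l i) - map C (B l i)) * C (F i)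
        = (C (B l i * F i) - map C (B l i * F i) : MvPolynomial σ (MvPolynomial σ k)) := by
      intro i
      rw [map_mul, map_mul]
      ring
    simp only [e3]
    rw [Finset.sum_sub_distrib, ← map_sum, ← map_sum, ← hB l, hW]
    simp
  have h3 := det_congr_of_mulVec (uu k) koszulExact_uu M M' W h1 h2
  have h3' : M.det - M'.det ∈ J := by
    refine (Ideal.span_le.2 ?_) h3
    rintro _ ⟨l, rfl⟩
    exact Ideal.sub_mem _ (hCXK l) (hXK l)
  have h4 : M'.det - (Bz * DD).det ∈ J := by
    apply det_sub_det_mem
    intro l j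
    simp only [hM', Matrix.add_apply, of_apply, add_sub_cancel_left]
    exact Ideal.sum_mem _ fun i _ => Ideal.mul_mem_left _ _ (hCF i)
  refine ⟨DD.det, ?_⟩
  have h5 : M.det = thetaW k σ K := by
    rw [hM, det_diagonal]
    rfl
  have h6 : (Bz * DD).det = map C B.det * DD.det := by
    rw [det_mul, hBz]
    congr 1
    exact (RingHom.map_det (MvPolynomial.map C) B).symm
  rw [← h5, ← h6]
  have := Ideal.add_mem _ h3' h4
  simpa using this

theorem coeff_thetaW (K : ℕ) (γ : σ →₀ ℕ) (hγ : ∀ l, γ l ≤ K - 1) (hK : 0 < K) :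
    coeff γ (thetaW k σ K) = ∏ l, X l ^ (K - 1 - γ l) := by
  unfold thetaW
  rw [Finset.prod_univ_sum, coeff_sum]
  have hterm : ∀ p : σ → ℕ, (∏ l, ((C (X l) : MvPolynomial σ (MvPolynomial σ k)) ^ (p l) *
      (X l) ^ (K - 1 - p l))) = monomial (Finsupp.equivFunOnFinite.symm fun l => K - 1 - p l)
        (∏ l, (X l : MvPolynomial σ k) ^ (p l)) := by
    intro p
    rw [Finset.prod_mul_distrib]
    have e1 : ∏ l, (C (X l) : MvPolynomial σ (MvPolynomial σ k)) ^ (p l) =
        C (∏ l, (X l : MvPolynomial σ k) ^ (p l)) := by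
      rw [map_prod]
      simp
    rw [e1, monomial_eq]
    congr 1
    rw [Finsupp.prod_fintype _ _ (by simp)]
    rfl
  rw [Finset.sum_eq_single (fun l => K - 1 - γ l)]
  · rw [hterm, coeff_monomial, if_pos]
    ext l
    simp only [Finsupp.equivFunOnFinite_symm_apply_apply]
    have := hγ l
    omega
  · intro p hp hne
    rw [hterm, coeff_monomial, if_neg]
    intro h
    apply hne
    funext l
    have h2 := DFunLike.congr_fun h l
    simp only [Finsupp.equivFunOnFinite_symm_apply_apply] at h2
    have h3 : p l < K := by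
      rw [Fintype.mem_piFinset] at hp
      simpa using hp l
    omega
  · intro h
    exfalso
    apply h
    rw [Fintype.mem_piFinset]
    intro l
    rw [Finset.mem_range]
    omega

/-- coefficient extraction reproduces `g` modulo the powers -/
theorem coeff_mul_thetaW (K : ℕ) (hK : 0 < K) (κ : σ →₀ ℕ) (hκ : ∀ l, κ l = K - 1)
    (g : MvPolynomial σ k) : coeff κ (map C g * thetaW k σ K) - g ∈
      Ideal.span (Set.range (fun l : σ => (X l : MvPolynomial σ k) ^ K)) := by
  induction g using MvPolynomial.induction_on' with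
  | monomial β a =>
    rw [map_monomial, coeff_monomial_mul']
    split_ifs with h
    · rw [coeff_thetaW K _ (by intro l; rw [Finsupp.tsub_apply, hκ]; omega) hK]
      have : C a * ∏ l, X l ^ (K - 1 - (κ - β) l) = monomial β a := by
        rw [monomial_eq, Finsupp.prod_fintype _ _ (by simp)]
        congr 1
        apply Finset.prod_congr rfl
        intro l _
        congr 1
        have h1 := h l
        rw [hκ] at h1
        rw [Finsupp.tsub_apply, hκ]
        omega
      rw [this, sub_self]
      exact Ideal.zero_mem _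
    · rw [zero_sub]
      refine Submodule.neg_mem _ ?_
      rw [Finsupp.le_def] at h
      push Not at h
      obtain ⟨l, hl⟩ := h
      rw [hκ] at hl
      have : monomial β a = monomial (β - Finsupp.single l K) a * X l ^ K := by
        rw [X_pow_eq_monomial, monomial_mul, mul_one]
        congr 2
        ext j
        simp only [Finsupp.add_apply, Finsupp.tsub_apply, Finsupp.single_apply]
        split_ifs with hj
        · subst hj; omega
        · omega
      rw [this]
      exact Ideal.mul_mem_left _ _ (Ideal.subset_span ⟨l, rfl⟩)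
  | add p q hp hq =>
    rw [map_add, add_mul, coeff_add]
    have := Ideal.add_mem _ hp hq
    convert this using 1
    ring

end Pool.Agent.Helper56.Disc
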