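import Mathlib

namespace Pool.Agent.Helper56.Disc

open MvPolynomial

/-- The exponent vectors of the monomials of degree `d` in `n` variables. -/
abbrev Mon (n d : ℕ) : Type := ↥((Finset.univ : Finset (Fin n)).finsuppAntidiag d)

/-- The form of degree `d` in `n` variables with coefficient vector `c`. -/
noncomputable def form {R : Type*} [CommSemiring R] {n d : ℕ} (c : Mon n d → R) :
    MvPolynomial (Fin n) R :=
  ∑ α : Mon n d, monomial α.1 (c α)

/-- A form is nondegenerate if its first partial derivatives have no common zero except `0`. -/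
def Nondegenerate {n : ℕ} (f : MvPolynomial (Fin n) ℂ) : Prop :=
  ∀ z : Fin n → ℂ, (∀ i, eval z (pderiv i f) = 0) → z = 0

/-- The Hessian determinant. -/
noncomputable def hess {R : Type*} [CommRing R] {n : ℕ} (f : MvPolynomial (Fin n) R) :
    MvPolynomial (Fin n) R :=
  (Matrix.of fun i j => pderiv j (pderiv i f)).det

/-- The ideal generated by the first partial derivatives. -/
noncomputable def jacIdeal {n : ℕ} (f : MvPolynomial (Fin n) ℂ) : Ideal (MvPolynomial (Fin n) ℂ) :=
  Ideal.span (Set.range fun i => pderiv i f)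

/-- `Δ` is a discriminant of forms of degree `d` in `n` variables: an irreducible polynomial in
the coefficients that vanishes exactly at the degenerate forms. -/
def IsDiscriminant {n d : ℕ} (Δ : MvPolynomial (Mon n d) ℂ) : Prop :=
  Irreducible Δ ∧ ∀ c : Mon n d → ℂ, eval c Δ = 0 ↔ ¬ Nondegenerate (form c)

/-- `Φ` is the associated form of the form `f` of degree `d`: it is homogeneous of degree
`n (d - 2)`, and for every point `x` its value `Φ(x)` is the scalar with
`(x_1 z_1 + ... + x_n z_n) ^ (n (d - 2)) = Φ(x) Hess(f)` modulo the partial derivatives of `f`. -/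
def IsAssociatedForm {n : ℕ} (d : ℕ) (f : MvPolynomial (Fin n) ℂ)
    (Φ : MvPolynomial (Fin n) ℂ) : Prop :=
  Φ.IsHomogeneous (n * (d - 2)) ∧ ∀ x : Fin n → ℂ,
    (∑ i, C (x i) * X i) ^ (n * (d - 2)) - C (eval x Φ) * hess f ∈ jacIdeal f

/-- The map `c ↦ Δ(c) ^ p • Φ(form c)`, defined for nondegenerate forms (where the associated form
`Φ` exists and is unique), extends to a polynomial map from all forms of degree `d` to the forms
of degree `n (d - 2)`. -/
def PowerExtends {n d : ℕ} (Δ : MvPolynomial (Mon n d) ℂ) (p : ℕ) : Prop :=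
  ∃ P : MvPolynomial (Fin n) (MvPolynomial (Mon n d) ℂ), P.IsHomogeneous (n * (d - 2)) ∧
    ∀ c : Mon n d → ℂ, Nondegenerate (form c) →
      ∃ Φ, IsAssociatedForm d (form c) Φ ∧ (∀ Ψ, IsAssociatedForm d (form c) Ψ → Ψ = Φ) ∧
        map (eval c) P = C (eval c Δ ^ p) * Φ

end Pool.Agent.Helper56.Disc
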