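import Mathlib

namespace Pool.Agent.Helper56.Disc

open Matrix Submodule

variable {k : Type*} [Field k] {ι κ : Type*} [Fintype ι] [DecidableEq ι]

theorem exists_det_ne_zero [Nonempty κ] (v : κ → ι → k) (h : ι → k) (α0 : ι)
    (h1 : h ∉ span k (Set.range v)) (h2 : ∀ x : ι → k, x ∈ span k (Set.range v) ⊔ span k {h}) :
    ∃ J : ι → κ, ((Matrix.of fun α => v (J α)).updateRow α0 h).det ≠ 0 := by
  classical
  obtain ⟨b, hb, hspan, hli⟩ := exists_linearIndependent k (Set.range v)
  have hfin : b.Finite := hli.setFinite
  have hft : Fintype b := hfin.fintype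
  have hopt : LinearIndependent k (fun o : Option b => Option.casesOn' o h (Subtype.val)) := by
    apply LinearIndependent.option hli
    rw [Subtype.range_coe, hspan]
    exact h1
  set w : Option b → ι → k := fun o => Option.casesOn' o h (Subtype.val) with hw
  have hsp : ⊤ ≤ span k (Set.range w) := by
    intro x _
    have hx := h2 x
    rw [← hspan] at hx
    have hle : span k b ⊔ span k {h} ≤ span k (Set.range w) := by
      refine sup_le ?_ ?_
      · rw [span_le]
        intro y hy
        exact subset_span ⟨some ⟨y, hy⟩, rfl⟩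
      · rw [span_le]
        rintro y hy
        rw [Set.mem_singleton_iff] at hy
        subst hy
        exact subset_span ⟨none, rfl⟩
    exact hle hx
  have hcard : Fintype.card (Option b) = Fintype.card ι := by
    have := Module.finrank_eq_card_basis (Module.Basis.mk hopt hsp)
    rw [Module.finrank_fintype_fun_eq_card] at this
    exact this.symm
  obtain ⟨e0⟩ := Fintype.card_eq.1 hcard
  -- equivalence sending `α0` to `none`
  set e : ι ≃ Option b := e0.symm.trans (Equiv.swap (e0.symm α0) none) with he
  have he0 : e α0 = none := by simp [he]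
  have hJ : ∀ α, ∃ j : κ, α ≠ α0 → v j = w (e α) := by
    intro α
    by_cases hα : α = α0
    · exact ⟨Classical.arbitrary κ, fun h => absurd hα h⟩
    · have : e α ≠ none := by
        rw [← he0]
        exact fun h => hα (e.injective h)
      obtain ⟨x, hx⟩ := Option.ne_none_iff_exists'.1 this
      obtain ⟨j, hj⟩ := hb x.2
      exact ⟨j, fun _ => by rw [hj, hx]; rfl⟩
  choose J hJ using hJ
  refine ⟨J, ?_⟩
  have hrow : ((Matrix.of fun α => v (J α)).updateRow α0 h).row = w ∘ e := by
    funext α
    by_cases hα : α = α0
    · subst hα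
      change (updateRow (Matrix.of fun α => v (J α)) α h) α = w (e α)
      rw [updateRow_self, he0]
      rfl
    · change (updateRow (Matrix.of fun α => v (J α)) α0 h) α = w (e α)
      rw [updateRow_ne hα, ← hJ α hα]
      rfl
  have hli2 : LinearIndependent k ((Matrix.of fun α => v (J α)).updateRow α0 h).row := by
    rw [hrow]
    exact hopt.comp e e.injective
  rw [linearIndependent_rows_iff_isUnit, isUnit_iff_isUnit_det] at hli2
  exact hli2.ne_zero

theorem det_eq_zero_of_mem (W : Submodule k (ι → k)) (hW : W ≠ ⊤) (M : Matrix ι ι k)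
    (hM : ∀ i, M i ∈ W) : M.det = 0 := by
  by_contra hdet
  have h1 : LinearIndependent k M.row := by
    rw [linearIndependent_rows_iff_isUnit, isUnit_iff_isUnit_det]
    exact isUnit_iff_ne_zero.2 hdet
  have h2 := h1.span_eq_top_of_card_eq_finrank' (by simp)
  apply hW
  rw [eq_top_iff, ← h2, span_le]
  rintro _ ⟨i, rfl⟩
  exact hM i

end Pool.Agent.Helper56.Disc
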