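import Pool.Agent.Helper56.Disc.Socle
import Pool.Agent.Helper56.Disc.LinAlg
import Pool.Agent.Helper56.Disc.Defs

namespace Pool.Agent.Helper56.Disc

open MvPolynomial Matrix Submodule

variable {n d : ℕ}

theorem mon_degree {e : ℕ} (α : Mon n e) : α.1.degree = e := by
  have := (Finset.mem_finsuppAntidiag.1 α.2).1
  rw [Finsupp.degree_apply]
  refine Eq.trans ?_ this
  apply Finset.sum_subset (Finset.subset_univ _)
  intro x _ hx
  simpa using hx

theorem mem_mon {e : ℕ} (α : Fin n →₀ ℕ) (h : α.degree = e) :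
    α ∈ (Finset.univ : Finset (Fin n)).finsuppAntidiag e := by
  rw [Finset.mem_finsuppAntidiag]
  refine ⟨?_, Finset.subset_univ _⟩
  rw [← h, Finsupp.degree_apply]
  symm
  apply Finset.sum_subset (Finset.subset_univ _)
  intro x _ hx
  simpa using hx

section general
variable {R : Type*} [CommRing R]

theorem form_isHomogeneous {e : ℕ} (c : Mon n e → R) : (form c).IsHomogeneous e := by
  unfold form
  refine IsHomogeneous.sum _ _ _ fun α _ => ?_
  exact isHomogeneous_monomial _ (mon_degree α)

theorem coeff_form {e : ℕ} (c : Mon n e → R) (α : Mon n e) : coeff α.1 (form c) = c α := by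
  unfold form
  rw [coeff_sum, Finset.sum_eq_single α]
  · rw [coeff_monomial, if_pos rfl]
  · intro β _ hβ
    rw [coeff_monomial, if_neg]
    intro h
    exact hβ (Subtype.ext h)
  · simp

/-- coefficient vector in degree `e` -/
def cv {e : ℕ} (g : MvPolynomial (Fin n) R) : Mon n e → R := fun γ => coeff γ.1 g

theorem form_cv {e : ℕ} (g : MvPolynomial (Fin n) R) (hg : g.IsHomogeneous e) :
    form (cv g : Mon n e → R) = g := by
  ext α
  by_cases h : α.degree = e
  · exact coeff_form (cv g) ⟨α, mem_mon α h⟩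
  · have h1 : coeff α g = 0 := by
      by_contra h2
      exact h (degree_of_isHomogeneous hg h2)
    have h3 : coeff α (form (cv g : Mon n e → R)) = 0 := by
      by_contra h2
      exact h (degree_of_isHomogeneous (form_isHomogeneous _) h2)
    rw [h1, h3]

theorem cv_form {e : ℕ} (x : Mon n e → R) : cv (form x) = x := by
  funext γ
  exact coeff_form x γ

theorem form_add {e : ℕ} (x y : Mon n e → R) : form (x + y) = form x + form y := by
  unfold form
  rw [← Finset.sum_add_distrib]
  apply Finset.sum_congr rfl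
  intro α _
  simp

theorem form_smul {e : ℕ} (a : R) (x : Mon n e → R) : form (a • x) = C a * form x := by
  unfold form
  rw [Finset.mul_sum]
  apply Finset.sum_congr rfl
  intro α _
  simp [C_mul_monomial]

theorem map_form {S : Type*} [CommRing S] (φ : R →+* S) {e : ℕ} (x : Mon n e → R) :
    map φ (form x) = form (fun γ => φ (x γ)) := by
  unfold form
  rw [map_sum]
  simp

theorem hess_isHomogeneous (f : MvPolynomial (Fin n) R) (hf : f.IsHomogeneous d) :
    (hess f).IsHomogeneous (n * (d - 2)) := by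
  unfold hess
  rw [det_apply]
  refine IsHomogeneous.sum _ _ _ fun τ _ => ?_
  have h1 : (∏ i, (Matrix.of fun i j => pderiv j (pderiv i f)) (τ i) i).IsHomogeneous
      (∑ _i : Fin n, (d - 1 - 1)) :=
    IsHomogeneous.prod _ _ _ fun i _ => (hf.pderiv).pderiv
  rw [Finset.sum_const, Finset.card_univ, smul_eq_mul, Fintype.card_fin] at h1
  have h2 : d - 1 - 1 = d - 2 := by omega
  rw [h2] at h1
  rcases Int.units_eq_one_or (Equiv.Perm.sign τ) with h | h
  · rw [h, one_smul]; exact h1
  · rw [h]
    have : ((-1 : ℤˣ) • ∏ i, (Matrix.of fun i j => pderiv j (pderiv i f)) (τ i) i) =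
        - ∏ i, (Matrix.of fun i j => pderiv j (pderiv i f)) (τ i) i := by
      simp [Units.smul_def]
    rw [this]
    exact h1.neg

theorem map_hess {S : Type*} [CommRing S] (φ : R →+* S) (f : MvPolynomial (Fin n) R) :
    map φ (hess f) = hess (map φ f) := by
  unfold hess
  rw [RingHom.map_det]
  congr 1
  ext1 i j
  simp only [RingHom.mapMatrix_apply, Matrix.map_apply, of_apply]
  rw [pderiv_map, pderiv_map]

/-- the row of the multiple `z ^ β * ∂_i f` -/
noncomputable def row {e a : ℕ} (c : Mon n d → R) (κ : Fin n × Mon n a) : Mon n e → R :=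
  cv (monomial κ.2.1 1 * pderiv κ.1 (form c))

theorem row_map {S : Type*} [CommRing S] (φ : R →+* S) {e a : ℕ} (c : Mon n d → R)
    (κ : Fin n × Mon n a) (γ : Mon n e) :
    φ (row c κ γ) = row (fun α => φ (c α)) κ γ := by
  unfold row cv
  rw [← coeff_map, map_mul, map_monomial, map_one, ← pderiv_map, map_form]

/-- the minors -/
noncomputable def Lam {e a : ℕ} (α0 : Mon n e) (J : Mon n e → Fin n × Mon n a) (c : Mon n d → R)
    (x : Mon n e → R) : R :=
  ((Matrix.of fun α => (row c (J α) : Mon n e → R)).updateRow α0 x).det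

theorem Lam_map {S : Type*} [CommRing S] (φ : R →+* S) {e a : ℕ} (α0 : Mon n e)
    (J : Mon n e → Fin n × Mon n a) (c : Mon n d → R) (x : Mon n e → R) :
    φ (Lam α0 J c x) = Lam α0 J (fun α => φ (c α)) (fun γ => φ (x γ)) := by
  unfold Lam
  rw [RingHom.map_det]
  congr 1
  ext α γ
  simp only [RingHom.mapMatrix_apply, Matrix.map_apply]
  by_cases h : α = α0
  · subst h
    rw [updateRow_self, updateRow_self]
  · rw [updateRow_ne h, updateRow_ne h]
    exact row_map φ c (J α) γ

end general

/-- span of the rows -/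
def W (e a : ℕ) (c : Mon n d → ℂ) : Submodule ℂ (Mon n e → ℂ) :=
  span ℂ (Set.range (fun κ : Fin n × Mon n a => (row c κ : Mon n e → ℂ)))

theorem form_mem_of_mem_W {e a : ℕ} (h : a + (d - 1) = e) (c : Mon n d → ℂ) (x : Mon n e → ℂ)
    (hx : x ∈ W e a c) : form x ∈ jacIdeal (form c) := by
  unfold W at hx
  induction hx using Submodule.span_induction with
  | mem x hx =>
    obtain ⟨κ, rfl⟩ := hx
    simp only [row]
    rw [form_cv]
    · exact Ideal.mul_mem_left _ _ (Ideal.subset_span ⟨κ.1, rfl⟩)
    · rw [← h]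
      exact (isHomogeneous_monomial _ (mon_degree κ.2)).mul (form_isHomogeneous c).pderiv
  | zero =>
    have : form (0 : Mon n e → ℂ) = 0 := by simp [form]
    rw [this]
    exact Ideal.zero_mem _
  | add x y _ _ h1 h2 =>
    rw [form_add]
    exact Ideal.add_mem _ h1 h2
  | smul a x _ h1 =>
    rw [form_smul]
    exact Ideal.mul_mem_left _ _ h1

theorem mem_W_of_form_mem {e a : ℕ} (h : a + (d - 1) = e) (c : Mon n d → ℂ) (x : Mon n e → ℂ)
    (hx : form x ∈ jacIdeal (form c)) : x ∈ W e a c := by
  have hh : (form x).IsHomogeneous (a + (d - 1)) := by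
    rw [h]; exact form_isHomogeneous x
  obtain ⟨p, hp, hpx⟩ := exists_homogeneous_coeffs (fun i => pderiv i (form c)) (d - 1) a
    (fun i => (form_isHomogeneous c).pderiv) (form x) hh hx
  have h1 : x = ∑ i, ∑ β : Mon n a, (coeff β.1 (p i)) • (row c (i, β) : Mon n e → ℂ) := by
    rw [← cv_form x, hpx]
    funext γ
    simp only [cv, Finset.sum_apply, Pi.smul_apply, row, smul_eq_mul]
    rw [coeff_sum]
    apply Finset.sum_congr rfl
    intro i _
    conv_lhs => rw [← form_cv (p i) (hp i)]
    unfold form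
    rw [Finset.sum_mul, coeff_sum]
    apply Finset.sum_congr rfl
    intro β _
    rw [← coeff_C_mul, ← mul_assoc, C_mul_monomial, mul_one]
    rfl
  rw [h1]
  unfold W
  exact Submodule.sum_mem _ fun i _ => Submodule.sum_mem _ fun β _ =>
    Submodule.smul_mem _ _ (subset_span ⟨(i, β), rfl⟩)

/-- consequences of the socle theorem for gradients -/
theorem socle_form (hd : 2 ≤ d) (c : Mon n d → ℂ) (hc : Nondegenerate (form c)) :
    hess (form c) ∉ jacIdeal (form c) ∧ ∀ x : Mon n (n * (d - 2)) → ℂ,
      ∃ v : ℂ, form x - C v * hess (form c) ∈ jacIdeal (form c) := by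
  have hm : ((d - 1 : ℕ) : ℂ) ≠ 0 := by
    rw [Nat.cast_ne_zero]; omega
  obtain ⟨h1, h2⟩ := socle (fun i => pderiv i (form c)) (d - 1) hm
    (fun i => (form_isHomogeneous c).pderiv) hc
  refine ⟨h1, fun x => ?_⟩
  apply h2
  rw [Fintype.card_fin]
  have : d - 1 - 1 = d - 2 := by omega
  rw [this]
  exact form_isHomogeneous x

end Pool.Agent.Helper56.Disc
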