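import Pool.Agent.Helper56.Disc.Grid

namespace Pool.Agent.Helper56.Disc

open MvPolynomial Matrix

variable {n : ℕ}

/-- weights of the special family -/
noncomputable def cc (i : Fin n) : ℂ := 3 ^ (i : ℕ)

theorem cc_ne (i : Fin n) : cc i ≠ 0 := pow_ne_zero _ (by norm_num)

/-- the special family -/
noncomputable def fam (o : Fin n) (d : ℕ) (t : ℂ) : MvPolynomial (Fin n) ℂ :=
  (∑ i ∈ Finset.univ.erase o, (C (2 * cc i) * X i ^ d - C (d * cc i) * (X i ^ 2 * X o ^ (d - 2))))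
    + C t * X o ^ d

theorem fam_isHomogeneous (o : Fin n) (d : ℕ) (hd : 3 ≤ d) (t : ℂ) : (fam o d t).IsHomogeneous d := by
  unfold fam
  refine IsHomogeneous.add ?_ ?_
  · refine IsHomogeneous.sum _ _ _ fun i _ => ?_
    refine IsHomogeneous.sub ?_ ?_
    · have := (isHomogeneous_C (Fin n) (2 * cc i)).mul (isHomogeneous_X_pow (R := ℂ) i d)
      rwa [zero_add] at this
    · have := (isHomogeneous_C (Fin n) (d * cc i)).mul
        ((isHomogeneous_X_pow (R := ℂ) i 2).mul (isHomogeneous_X_pow (R := ℂ) o (d - 2)))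
      have e : 0 + (2 + (d - 2)) = d := by omega
      rwa [e] at this
  · have := (isHomogeneous_C (Fin n) t).mul (isHomogeneous_X_pow (R := ℂ) o d)
    rwa [zero_add] at this

theorem pd_pow (i j : Fin n) (k : ℕ) : pderiv j (X i ^ k : MvPolynomial (Fin n) ℂ) =
    if i = j then C (k : ℂ) * X i ^ (k - 1) else 0 := by
  rw [Derivation.leibniz_pow, pderiv_X]
  split_ifs with h
  · subst h
    simp
  · rw [Pi.single_eq_of_ne h]
    simp

theorem pd_term (o : Fin n) (d : ℕ) (hd : 3 ≤ d) (i j : Fin n) (hi : i ≠ o) :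
    pderiv j (C (2 * cc i) * X i ^ d - C (d * cc i) * (X i ^ 2 * X o ^ (d - 2)) :
      MvPolynomial (Fin n) ℂ) =
    if i = j then C (2 * d * cc i) * (X i ^ (d - 1) - X i * X o ^ (d - 2))
    else if j = o then - (C (d * (d - 2) * cc i) * (X i ^ 2 * X o ^ (d - 3))) else 0 := by
  rw [map_sub, pderiv_C_mul, pderiv_C_mul, Derivation.leibniz, pd_pow, pd_pow, pd_pow]
  by_cases h : i = j
  · subst h
    rw [if_pos rfl, if_pos rfl, if_pos rfl, if_neg (Ne.symm hi)]
    simp only [smul_eq_mul, zero_add, mul_zero, map_mul]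
    norm_num
    ring
  · rw [if_neg h, if_neg h, if_neg h]
    by_cases h2 : j = o
    · subst h2
      rw [if_pos rfl, if_pos rfl]
      have e : d - 2 - 1 = d - 3 := by omega
      rw [e]
      simp only [smul_eq_mul, mul_zero, add_zero, zero_sub]
      have : ((d - 2 : ℕ) : ℂ) = (d : ℂ) - 2 := by push_cast [Nat.cast_sub (by omega : 2 ≤ d)]; ring
      rw [this]
      simp only [map_mul]
      ring
    · rw [if_neg h2, if_neg (Ne.symm h2)]
      simp

theorem pderiv_fam_ne (o : Fin n) (d : ℕ) (hd : 3 ≤ d) (t : ℂ) (j : Fin n) (hj : j ≠ o) :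
    pderiv j (fam o d t) = C (2 * d * cc j) * (X j ^ (d - 1) - X j * X o ^ (d - 2)) := by
  unfold fam
  rw [map_add, map_sum, Finset.sum_eq_single j]
  · rw [pd_term o d hd j j hj, if_pos rfl, pderiv_C_mul, pd_pow, if_neg (Ne.symm hj)]
    simp
  · intro i hi hij
    rw [pd_term o d hd i j (Finset.ne_of_mem_erase hi), if_neg hij, if_neg hj]
  · intro h
    exfalso
    exact h (Finset.mem_erase.2 ⟨hj, Finset.mem_univ _⟩)

theorem pderiv_fam_o (o : Fin n) (d : ℕ) (hd : 3 ≤ d) (t : ℂ) :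
    pderiv o (fam o d t) = C (d * t) * X o ^ (d - 1) -
      ∑ i ∈ Finset.univ.erase o, C (d * (d - 2) * cc i) * (X i ^ 2 * X o ^ (d - 3)) := by
  unfold fam
  rw [map_add, map_sum, pderiv_C_mul, pd_pow, if_pos rfl]
  have : ∀ i ∈ Finset.univ.erase o, pderiv o (C (2 * cc i) * X i ^ d -
      C (d * cc i) * (X i ^ 2 * X o ^ (d - 2)) : MvPolynomial (Fin n) ℂ) =
      - (C (d * (d - 2) * cc i) * (X i ^ 2 * X o ^ (d - 3))) := by
    intro i hi
    rw [pd_term o d hd i o (Finset.ne_of_mem_erase hi), if_neg (Finset.ne_of_mem_erase hi),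
      if_pos rfl]
  rw [Finset.sum_congr rfl this, Finset.sum_neg_distrib]
  simp only [map_mul]
  ring

/-- the quadratic form -/
noncomputable def qq (o : Fin n) (a : Fin n → ℂ) : ℂ := ∑ i ∈ Finset.univ.erase o, cc i * a i ^ 2

/-- value of the distinguished partial derivative on the grid -/
noncomputable def Fo (o : Fin n) (d : ℕ) (t : ℂ) (a : Fin n → ℂ) : ℂ := d * (t - (d - 2) * qq o a)

theorem eval_pderiv_ne {o : Fin n} {d : ℕ} (hd : 3 ≤ d) (t : ℂ) {a : Fin n → ℂ}
    (ha : a ∈ GG o (d - 1)) (j : Fin n) (hj : j ≠ o) : eval a (pderiv j (fam o d t)) = 0 := by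
  obtain ⟨ha1, ha2⟩ := mem_GG.1 ha
  rw [pderiv_fam_ne o d hd t j hj]
  simp only [map_mul, map_sub, map_pow, eval_C, eval_X, ha1, one_pow, mul_one,
    pow_ZZ (by omega : 2 ≤ d - 1) (ha2 j hj), sub_self, mul_zero]

theorem eval_pderiv_o' {o : Fin n} {d : ℕ} (hd : 3 ≤ d) (t : ℂ) {a : Fin n → ℂ}
    (ha1 : a o = 1) : eval a (pderiv o (fam o d t)) = Fo o d t a := by
  rw [pderiv_fam_o o d hd t, Fo, qq]
  simp only [map_mul, map_sub, map_pow, map_sum, eval_C, eval_X, ha1, one_pow, mul_one]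
  rw [mul_sub (d : ℂ) t, Finset.mul_sum, Finset.mul_sum]
  congr 1
  apply Finset.sum_congr rfl
  intro i _
  ring

theorem sum_ne_zero_of_norm (S : Finset (Fin n)) (hS : S.Nonempty) (u : Fin n → ℂ)
    (hu : ∀ i ∈ S, ‖u i‖ = 3 ^ (i : ℕ)) : ∑ i ∈ S, u i ≠ 0 := by
  intro h0
  obtain ⟨i0, hi0, hmax⟩ := S.exists_max_image (fun i => i) hS
  rw [← Finset.add_sum_erase _ _ hi0] at h0
  have h1 : u i0 = - ∑ i ∈ S.erase i0, u i := by linear_combination h0
  have h2 : ‖u i0‖ ≤ ∑ i ∈ S.erase i0, (3 : ℝ) ^ (i : ℕ) := by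
    rw [h1, norm_neg]
    refine (norm_sum_le _ _).trans (le_of_eq ?_)
    apply Finset.sum_congr rfl
    intro i hi
    exact hu i (Finset.mem_of_mem_erase hi)
  rw [hu i0 hi0] at h2
  have h3 : ∑ i ∈ S.erase i0, 3 ^ (i : ℕ) < 3 ^ (i0 : ℕ) := by
    have h4 := Nat.geomSum_lt (m := 3) (n := (i0 : ℕ)) (s := (S.erase i0).map Fin.valEmbedding)
      (by norm_num) (by
        intro k hk
        rw [Finset.mem_map] at hk
        obtain ⟨i, hi, rfl⟩ := hk
        have h5 := hmax i (Finset.mem_of_mem_erase hi)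
        have h6 := Finset.ne_of_mem_erase hi
        exact lt_of_le_of_ne h5 (fun h => h6 (Fin.ext h)))
    rw [Finset.sum_map] at h4
    exact h4
  have h5 : (∑ i ∈ S.erase i0, (3 : ℝ) ^ (i : ℕ)) < 3 ^ (i0 : ℕ) := by exact_mod_cast h3
  linarith

theorem qq_ne {o : Fin n} {m : ℕ} (hm : 2 ≤ m) {a : Fin n → ℂ} (ha : a ∈ GG o m)
    (hne : a ≠ Pi.single o 1) : qq o a ≠ 0 := by
  obtain ⟨ha1, ha2⟩ := mem_GG.1 ha
  set S := (Finset.univ.erase o).filter fun i => a i ≠ 0 with hS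
  have h1 : qq o a = ∑ i ∈ S, cc i * a i ^ 2 := by
    unfold qq
    rw [hS, Finset.sum_filter]
    apply Finset.sum_congr rfl
    intro i _
    split_ifs with h
    · rfl
    · push Not at h
      rw [h]
      ring
  rw [h1]
  apply sum_ne_zero_of_norm
  · obtain ⟨i, hi⟩ : ∃ i, a i ≠ (Pi.single o 1 : Fin n → ℂ) i := by
      by_contra hcon
      push Not at hcon
      exact hne (funext hcon)
    by_cases hio : i = o
    · subst hio
      rw [Pi.single_eq_same] at hi
      exact absurd ha1 hi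
    · rw [Pi.single_eq_of_ne hio] at hi
      exact ⟨i, by rw [hS, Finset.mem_filter, Finset.mem_erase]; exact ⟨⟨hio, Finset.mem_univ _⟩, hi⟩⟩
  · intro i hi
    rw [hS, Finset.mem_filter, Finset.mem_erase] at hi
    have h2 : ‖a i‖ = 1 := by
      rcases (mem_ZZ hm (a i)).1 (ha2 i hi.1.1) with h | h
      · exact absurd h hi.2
      · exact Complex.norm_eq_one_of_pow_eq_one h (by omega)
    rw [norm_mul, norm_pow, h2, cc, norm_pow]
    norm_num

end Pool.Agent.Helper56.Disc
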