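import Pool.Agent.Helper56.Disc.Family

namespace Pool.Agent.Helper56.Disc

open MvPolynomial Matrix

variable {n : ℕ}

theorem Fo_ne {o : Fin n} {d : ℕ} (hd : 3 ≤ d) {t : ℂ} {a : Fin n → ℂ}
    (h : t ≠ (d - 2) * qq o a) : Fo o d t a ≠ 0 := by
  unfold Fo
  refine mul_ne_zero ?_ (sub_ne_zero.2 h)
  exact_mod_cast (by omega : d ≠ 0)

theorem homog_eval {p : MvPolynomial (Fin n) ℂ} {r : ℕ} (hp : p.IsHomogeneous r) (s : ℂ)
    (a : Fin n → ℂ) : eval (s • a) p = s ^ r * eval a p := by
  rw [eval_eq', eval_eq', Finset.mul_sum]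
  apply Finset.sum_congr rfl
  intro α hα
  have hdeg := degree_of_isHomogeneous hp (mem_support_iff.1 hα)
  have h1 : ∏ i, (s • a) i ^ α i = s ^ r * ∏ i, a i ^ α i := by
    simp only [Pi.smul_apply, smul_eq_mul, mul_pow]
    rw [Finset.prod_mul_distrib, Finset.prod_pow_eq_pow_sum]
    congr 2
    rw [← hdeg, Finsupp.degree_apply]
    symm
    apply Finset.sum_subset (Finset.subset_univ _)
    intro x _ hx
    simpa using hx
  rw [h1]
  ring

/-- the members of the family with non-vanishing values are nondegenerate -/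
theorem fam_nondeg {o : Fin n} {d : ℕ} (hd : 3 ≤ d) {t : ℂ}
    (ht : ∀ a ∈ GG o (d - 1), t ≠ (d - 2) * qq o a) : Nondegenerate (fam o d t) := by
  intro z hz
  have hne : ∀ j, j ≠ o → z j ^ (d - 1) = z j * z o ^ (d - 2) := by
    intro j hj
    have h1 := hz j
    rw [pderiv_fam_ne o d hd t j hj] at h1
    rw [map_mul, eval_C, map_sub, map_mul, map_pow, map_pow, eval_X, eval_X] at h1
    have h2 : (2 * d * cc j : ℂ) ≠ 0 := by
      refine mul_ne_zero (mul_ne_zero two_ne_zero ?_) (cc_ne j)
      exact_mod_cast (by omega : d ≠ 0)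
    rcases mul_eq_zero.1 h1 with h | h
    · exact absurd h h2
    · linear_combination h
  by_cases hzo : z o = 0
  · funext j
    by_cases hj : j = o
    · rw [hj, hzo]; rfl
    · have h1 := hne j hj
      rw [hzo, zero_pow (by omega), mul_zero] at h1
      exact pow_eq_zero_iff (by omega) |>.1 h1
  · exfalso
    set a : Fin n → ℂ := (z o)⁻¹ • z with ha
    have haz : z = z o • a := by
      rw [ha, smul_smul, mul_inv_cancel₀ hzo, one_smul]
    have hao : a o = 1 := by
      simp [ha, hzo]
    have hag : a ∈ GG o (d - 1) := by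
      rw [mem_GG]
      refine ⟨hao, fun i hi => ?_⟩
      rw [mem_ZZ (by omega)]
      have h1 := hne i hi
      by_cases hzi : z i = 0
      · left; simp [ha, hzi]
      · right
        have h2 : z i ^ (d - 2) = z o ^ (d - 2) := by
          have h3 : z i * z i ^ (d - 2) = z i * z o ^ (d - 2) := by
            rw [← h1, ← pow_succ']
            congr 1
            omega
          exact mul_left_cancel₀ hzi h3
        have e : d - 1 - 1 = d - 2 := by omega
        rw [e]
        simp only [ha, Pi.smul_apply, smul_eq_mul, mul_pow, h2]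
        rw [inv_pow, inv_mul_cancel₀ (pow_ne_zero _ hzo)]
    have h1 := hz o
    rw [haz, homog_eval ((fam_isHomogeneous o d hd t).pderiv), eval_pderiv_o' hd t hao] at h1
    rcases mul_eq_zero.1 h1 with h | h
    · exact pow_ne_zero _ hzo h
    · exact Fo_ne hd (ht a hag) h

theorem fam_zero_deg {o : Fin n} {d : ℕ} (hd : 3 ≤ d) : ¬ Nondegenerate (fam o d 0) := by
  intro h
  have hp : (Pi.single o 1 : Fin n → ℂ) ∈ GG o (d - 1) := by
    rw [mem_GG]
    refine ⟨by simp, fun i hi => ?_⟩
    rw [Pi.single_eq_of_ne hi]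
    exact zero_mem_ZZ
  have h1 := h (Pi.single o 1) (by
    intro j
    by_cases hj : j = o
    · subst hj
      rw [eval_pderiv_o' hd 0 (by simp), Fo, qq]
      rw [Finset.sum_eq_zero]
      · simp
      · intro i hi
        rw [Pi.single_eq_of_ne (Finset.ne_of_mem_erase hi)]
        ring
    · exact eval_pderiv_ne hd 0 hp j hj)
  have h2 := congrFun h1 o
  rw [Pi.single_eq_same] at h2
  exact one_ne_zero h2

end Pool.Agent.Helper56.Disc
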