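import Pool.Agent.Helper56.Disc.Family2

namespace Pool.Agent.Helper56.Disc

open MvPolynomial Matrix

variable {n : ℕ}

theorem det_updateRow_diagonal (D r : Fin n → ℂ) (o : Fin n) :
    ((diagonal D).updateRow o r).det = (∏ j ∈ Finset.univ.erase o, D j) * r o := by
  rw [← cramer_transpose_apply, diagonal_transpose, cramer_eq_adjugate_mulVec, adjugate_diagonal,
    mulVec_diagonal]

theorem det_arrow (M : Matrix (Fin n) (Fin n) ℂ) (o : Fin n) (a : Fin n → ℂ) (E : ℂ)
    (h0 : ∀ j k, j ≠ o → k ≠ j → k ≠ o → M j k = 0) (ha : a o = 1)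
    (h1 : ∀ j, j ≠ o → ∑ k, a k * M j k = 0) (h2 : ∑ k, a k * M o k = E) :
    M.det = E * ∏ j ∈ Finset.univ.erase o, M j j := by
  have h3 := det_updateCol_sum M o a
  rw [ha, one_smul] at h3
  rw [← h3]
  have h4 : M.updateCol o (fun k => ∑ i, a i • M k i) =
      (diagonal (fun j => M j j)).updateRow o (fun k => if k = o then E else M o k) := by
    ext j k
    by_cases hj : j = o
    · subst hj
      rw [updateRow_self]
      by_cases hk : k = j
      · subst hk
        rw [updateCol_self, if_pos rfl]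
        simpa using h2
      · rw [updateCol_ne hk, if_neg hk]
    · rw [updateRow_ne hj]
      by_cases hk : k = o
      · subst hk
        rw [updateCol_self, diagonal_apply_ne _ hj]
        simpa using h1 j hj
      · rw [updateCol_ne hk]
        by_cases hjk : k = j
        · subst hjk
          rw [diagonal_apply_eq]
        · rw [diagonal_apply_ne _ (Ne.symm hjk), h0 j k hj hjk hk]
  rw [h4, det_updateRow_diagonal, if_pos rfl, mul_comm]

theorem pderiv2_fam (o : Fin n) (d : ℕ) (hd : 3 ≤ d) (t : ℂ) (j k : Fin n) (hj : j ≠ o)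
    (hk : k ≠ o) : pderiv k (pderiv j (fam o d t)) =
      if k = j then C (2 * d * cc j) * (C ((d - 1 : ℕ) : ℂ) * X j ^ (d - 2) - X o ^ (d - 2)) else 0 := by
  rw [pderiv_fam_ne o d hd t j hj, pderiv_C_mul, map_sub, pd_pow, Derivation.leibniz, pd_pow,
    pderiv_X, if_neg (Ne.symm hk)]
  by_cases h : k = j
  · subst h
    rw [if_pos rfl, if_pos rfl, Pi.single_eq_same]
    have e : d - 1 - 1 = d - 2 := by omega
    rw [e]
    simp [smul_eq_C_mul]
  · rw [if_neg (Ne.symm h), if_neg h, Pi.single_eq_of_ne (Ne.symm h)]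
    simp

theorem eval_hess_fam {o : Fin n} {d : ℕ} (hd : 3 ≤ d) (t : ℂ) {a : Fin n → ℂ}
    (ha : a ∈ GG o (d - 1)) : eval a (hess (fam o d t)) =
      ((d - 1 : ℕ) : ℂ) * Fo o d t a * ∏ j ∈ Finset.univ.erase o,
        (2 * d * cc j * (((d - 1 : ℕ) : ℂ) * a j ^ (d - 2) - 1)) := by
  obtain ⟨ha1, ha2⟩ := mem_GG.1 ha
  unfold hess
  rw [RingHom.map_det]
  have hE : ∀ j, ∑ k, a k * eval a (pderiv k (pderiv j (fam o d t))) =
      ((d - 1 : ℕ) : ℂ) * eval a (pderiv j (fam o d t)) := by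
    intro j
    have h1 := ((fam_isHomogeneous o d hd t).pderiv (i := j)).sum_X_mul_pderiv
    have h2 := congrArg (eval a) h1
    rw [map_sum, nsmul_eq_mul, map_mul, map_natCast] at h2
    rw [← h2]
    apply Finset.sum_congr rfl
    intro k _
    rw [map_mul, eval_X]
  rw [det_arrow _ o a (((d - 1 : ℕ) : ℂ) * Fo o d t a)]
  · congr 1
    apply Finset.prod_congr rfl
    intro j hj
    have hj' := Finset.ne_of_mem_erase hj
    simp only [RingHom.mapMatrix_apply, Matrix.map_apply, of_apply]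
    rw [pderiv2_fam o d hd t j j hj' hj', if_pos rfl]
    simp only [map_mul, map_sub, map_pow, eval_C, eval_X, ha1, one_pow]
  · intro j k hj hkj hk
    simp only [RingHom.mapMatrix_apply, Matrix.map_apply, of_apply]
    rw [pderiv2_fam o d hd t j k hj hk, if_neg hkj, map_zero]
  · exact ha1
  · intro j hj
    simp only [RingHom.mapMatrix_apply, Matrix.map_apply, of_apply]
    rw [hE, eval_pderiv_ne hd t ha j hj, mul_zero]
  · simp only [RingHom.mapMatrix_apply, Matrix.map_apply, of_apply]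
    rw [hE, eval_pderiv_o' hd t ha1]

/-- the constant `K` -/
noncomputable def KK (o : Fin n) (d : ℕ) : ℂ :=
  ((d - 1 : ℕ) : ℂ) * ∏ j ∈ Finset.univ.erase o, (2 * d * cc j * ((d - 1 : ℕ) : ℂ))

theorem KK_ne {o : Fin n} {d : ℕ} (hd : 3 ≤ d) : KK o d ≠ 0 := by
  unfold KK
  have h1 : ((d - 1 : ℕ) : ℂ) ≠ 0 := by exact_mod_cast (by omega : d - 1 ≠ 0)
  have h2 : (d : ℂ) ≠ 0 := by exact_mod_cast (by omega : d ≠ 0)
  refine mul_ne_zero h1 (Finset.prod_ne_zero_iff.2 fun j _ => ?_)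
  exact mul_ne_zero (mul_ne_zero (mul_ne_zero two_ne_zero h2) (cc_ne j)) h1

theorem sum_hess {o : Fin n} {d : ℕ} (hd : 3 ≤ d) :
    ∑ a ∈ GG o (d - 1), wg o (d - 1) a * (((d - 1 : ℕ) : ℂ) * ∏ j ∈ Finset.univ.erase o,
        (2 * d * cc j * (((d - 1 : ℕ) : ℂ) * a j ^ (d - 2) - 1))) = KK o d := by
  set φ : Fin n → ℂ → ℂ := fun j b =>
    if j = o then 1 else (2 * d * cc j * (((d - 1 : ℕ) : ℂ) * b ^ (d - 2) - 1)) with hφ
  have h1 : ∀ a : Fin n → ℂ, ∏ j ∈ Finset.univ.erase o,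
        (2 * d * cc j * (((d - 1 : ℕ) : ℂ) * a j ^ (d - 2) - 1)) = ∏ j, φ j (a j) := by
    intro a
    rw [← Finset.mul_prod_erase _ _ (Finset.mem_univ o)]
    simp only [hφ, if_true, one_mul]
    apply Finset.prod_congr rfl
    intro j hj
    rw [if_neg (Finset.ne_of_mem_erase hj)]
  have h2 : ∑ a ∈ GG o (d - 1), wg o (d - 1) a * (((d - 1 : ℕ) : ℂ) * ∏ j, φ j (a j)) =
      ((d - 1 : ℕ) : ℂ) * ∑ a ∈ GG o (d - 1), wg o (d - 1) a * ∏ j, φ j (a j) := by
    rw [Finset.mul_sum]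
    apply Finset.sum_congr rfl
    intro a _
    ring
  simp only [h1]
  rw [h2, sum_wg_prod φ, KK]
  congr 1
  rw [← Finset.mul_prod_erase _ _ (Finset.mem_univ o)]
  have h3 : ∑ b ∈ tt o (d - 1) o, wi o (d - 1) o b * φ o b = 1 := by
    simp [tt, wi, hφ]
  rw [h3, one_mul]
  apply Finset.prod_congr rfl
  intro j hj
  have hj' := Finset.ne_of_mem_erase hj
  have h4 : ∑ b ∈ tt o (d - 1) j, wi o (d - 1) j b * φ j b =
      2 * d * cc j * (((d - 1 : ℕ) : ℂ) * ∑ b ∈ tt o (d - 1) j, wi o (d - 1) j b * b ^ (d - 2) -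
        ∑ b ∈ tt o (d - 1) j, wi o (d - 1) j b * b ^ 0) := by
    rw [Finset.mul_sum, ← Finset.sum_sub_distrib, Finset.mul_sum]
    apply Finset.sum_congr rfl
    intro b _
    simp only [hφ, hj', if_false]
    ring
  rw [h4, sum_tt_wi (by omega) hj' (d - 2) (by omega), sum_tt_wi (by omega) hj' 0 (by omega),
    if_pos (by omega), if_neg (by omega)]
  ring

/-- The functional `λ_t` on the grid. -/
noncomputable def lamt (o : Fin n) (d : ℕ) (t : ℂ) (g : MvPolynomial (Fin n) ℂ) : ℂ :=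
  ∑ a ∈ GG o (d - 1), wg o (d - 1) a * (eval a g / Fo o d t a)

theorem lamt_jac {o : Fin n} {d : ℕ} (hn : 2 ≤ n) (hd : 3 ≤ d) {t : ℂ}
    (ht : ∀ a ∈ GG o (d - 1), t ≠ (d - 2) * qq o a) (g : MvPolynomial (Fin n) ℂ)
    (hg : g.IsHomogeneous (n * (d - 2))) (hmem : g ∈ jacIdeal (fam o d t)) :
    lamt o d t g = 0 := by
  have hnd : n * (d - 2) = (n - 1) * (d - 2) - 1 + (d - 1) := by
    obtain ⟨k, rfl⟩ : ∃ k, n = k + 2 := ⟨n - 2, by omega⟩
    obtain ⟨l, rfl⟩ : ∃ l, d = l + 3 := ⟨d - 3, by omega⟩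
    have e1 : k + 2 - 1 = k + 1 := by omega
    have e2 : l + 3 - 2 = l + 1 := by omega
    have e3 : l + 3 - 1 = l + 2 := by omega
    rw [e1, e2, e3]
    have : 1 ≤ (k + 1) * (l + 1) := Nat.mul_pos (by omega) (by omega)
    have h2 : (k + 2) * (l + 1) = (k + 1) * (l + 1) + (l + 1) := by ring
    omega
  rw [hnd] at hg
  obtain ⟨p, hp, hpx⟩ := exists_homogeneous_coeffs (fun i => pderiv i (fam o d t)) (d - 1) _
    (fun i => (fam_isHomogeneous o d hd t).pderiv) g hg hmem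
  unfold lamt
  have h1 : ∀ a ∈ GG o (d - 1), wg o (d - 1) a * (eval a g / Fo o d t a) =
      wg o (d - 1) a * eval a (p o) := by
    intro a ha
    congr 1
    have h2 : eval a g = eval a (p o) * Fo o d t a := by
      rw [hpx, map_sum, Finset.sum_eq_single o]
      · rw [map_mul, eval_pderiv_o' hd t (mem_GG.1 ha).1]
      · intro j _ hj
        rw [map_mul, eval_pderiv_ne hd t ha j hj, mul_zero]
      · simp
    rw [h2, mul_div_assoc, div_self (Fo_ne hd (ht a ha)), mul_one]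
  rw [Finset.sum_congr rfl h1]
  apply sum_wg_eval (by omega) (p o) _ (hp o)
  have e : d - 1 - 1 = d - 2 := by omega
  rw [e]
  have : 1 ≤ (n - 1) * (d - 2) := Nat.mul_pos (by omega) (by omega)
  omega

theorem lamt_hess {o : Fin n} {d : ℕ} (hd : 3 ≤ d) {t : ℂ}
    (ht : ∀ a ∈ GG o (d - 1), t ≠ (d - 2) * qq o a) : lamt o d t (hess (fam o d t)) = KK o d := by
  rw [← sum_hess hd]
  unfold lamt
  apply Finset.sum_congr rfl
  intro a ha
  rw [eval_hess_fam hd t ha]
  congr 1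
  have := Fo_ne hd (ht a ha)
  field_simp

end Pool.Agent.Helper56.Disc
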