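import Pool.Agent.Helper56.Disc.Family3

namespace Pool.Agent.Helper56.Disc

open MvPolynomial Matrix Filter Topology

variable {n : ℕ}

theorem II_le {o : Fin n} {d : ℕ} (hd : 3 ≤ d) (t : ℂ) : II o (d - 1) ≤ jacIdeal (fam o d t) := by
  unfold II
  rw [Ideal.span_le]
  rintro _ ⟨i, hi, rfl⟩
  have h1 : pderiv i (fam o d t) ∈ jacIdeal (fam o d t) := Ideal.subset_span ⟨i, rfl⟩
  have h2 : (2 * d * cc i : ℂ) ≠ 0 := by
    refine mul_ne_zero (mul_ne_zero two_ne_zero ?_) (cc_ne i)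
    exact_mod_cast (by omega : d ≠ 0)
  have h3 := Ideal.mul_mem_left _ (C (2 * d * cc i : ℂ)⁻¹) h1
  rw [pderiv_fam_ne o d hd t i hi, ← mul_assoc, ← map_mul, inv_mul_cancel₀ h2, map_one,
    one_mul] at h3
  have e : d - 1 - 1 = d - 2 := by omega
  rw [e]
  exact h3

/-- the product without the power of the distinguished variable -/
noncomputable def UU (o : Fin n) (m : ℕ) (a : Fin n → ℂ) : MvPolynomial (Fin n) ℂ :=
  ∏ i ∈ Finset.univ.erase o, hmg m (X i) (X o) (ell m (a i))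

theorem lagr_eq (o : Fin n) (m : ℕ) (a : Fin n → ℂ) : lagr o m a = X o ^ (m - 1) * UU o m a := by
  unfold lagr UU
  rw [← Finset.mul_prod_erase _ _ (Finset.mem_univ o)]
  congr 1
  · unfold psi; rw [if_pos rfl]
  · apply Finset.prod_congr rfl
    intro i hi
    unfold psi
    rw [if_neg (Finset.ne_of_mem_erase hi)]

theorem hmg_isHomogeneous (m : ℕ) (hm : 2 ≤ m) (i o : Fin n) (p : Polynomial ℂ) :
    (hmg m (X i : MvPolynomial (Fin n) ℂ) (X o) p).IsHomogeneous (m - 1) := by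
  unfold hmg
  refine IsHomogeneous.sum _ _ _ fun j hj => ?_
  rw [Finset.mem_range] at hj
  have := ((isHomogeneous_C (Fin n) (p.coeff j)).mul (isHomogeneous_X_pow (R := ℂ) i j)).mul
    (isHomogeneous_X_pow (R := ℂ) o (m - 1 - j))
  have e : 0 + j + (m - 1 - j) = m - 1 := by omega
  rwa [e] at this

theorem UU_isHomogeneous (o : Fin n) (m : ℕ) (hm : 2 ≤ m) (a : Fin n → ℂ) :
    (UU o m a).IsHomogeneous ((n - 1) * (m - 1)) := by
  unfold UU
  have := IsHomogeneous.prod (Finset.univ.erase o)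
    (fun i => hmg m (X i : MvPolynomial (Fin n) ℂ) (X o) (ell m (a i))) (fun _ => m - 1)
    (fun i _ => hmg_isHomogeneous m hm i o _)
  rw [Finset.sum_const, Finset.card_erase_of_mem (Finset.mem_univ o), Finset.card_univ,
    Fintype.card_fin, smul_eq_mul] at this
  exact this

theorem hmg_mod (m : ℕ) (hm : 2 ≤ m) (i o : Fin n) (b : ℂ) :
    hmg m (X i : MvPolynomial (Fin n) ℂ) (X o) (ell m b) - C (wt m b) * X i ^ (m - 1) ∈
      Ideal.span {(X o : MvPolynomial (Fin n) ℂ)} := by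
  unfold hmg
  obtain ⟨l, rfl⟩ : ∃ l, m = l + 1 := ⟨m - 1, by omega⟩
  rw [Finset.sum_range_succ]
  have e : l + 1 - 1 = l := by omega
  simp only [e]
  have h1 : ∑ x ∈ Finset.range l, algebraMap ℂ (MvPolynomial (Fin n) ℂ) ((ell (l + 1) b).coeff x) *
      X i ^ x * X o ^ (l - x) + algebraMap ℂ (MvPolynomial (Fin n) ℂ) ((ell (l + 1) b).coeff l) *
      X i ^ l * X o ^ (l - l) - C (wt (l + 1) b) * X i ^ l =
      ∑ x ∈ Finset.range l, algebraMap ℂ (MvPolynomial (Fin n) ℂ) ((ell (l + 1) b).coeff x) *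
      X i ^ x * X o ^ (l - x) := by
    have : algebraMap ℂ (MvPolynomial (Fin n) ℂ) ((ell (l + 1) b).coeff l) = C (wt (l + 1) b) := rfl
    rw [this, Nat.sub_self, pow_zero, mul_one]
    ring
  rw [h1]
  refine Ideal.sum_mem _ fun x hx => ?_
  rw [Finset.mem_range] at hx
  have h2 : l - x = (l - x - 1) + 1 := by omega
  rw [h2, pow_succ, ← mul_assoc]
  exact Ideal.mul_mem_left _ _ (Ideal.subset_span rfl)

theorem prod_sub_prod_mem {R ι : Type*} [CommRing R] (J : Ideal R) (s : Finset ι) (f g : ι → R)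
    (h : ∀ i ∈ s, f i - g i ∈ J) : ∏ i ∈ s, f i - ∏ i ∈ s, g i ∈ J := by
  rw [← Ideal.Quotient.eq, map_prod, map_prod]
  apply Finset.prod_congr rfl
  intro i hi
  rw [Ideal.Quotient.eq]
  exact h i hi

theorem wg_eq (o : Fin n) (m : ℕ) (a : Fin n → ℂ) :
    wg o m a = ∏ i ∈ Finset.univ.erase o, wt m (a i) := by
  unfold wg
  rw [← Finset.mul_prod_erase _ _ (Finset.mem_univ o)]
  have : wi o m o (a o) = 1 := by simp [wi]
  rw [this, one_mul]
  apply Finset.prod_congr rfl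
  intro i hi
  unfold wi
  rw [if_neg (Finset.ne_of_mem_erase hi)]

theorem UU_mod (m : ℕ) (hm : 2 ≤ m) (o : Fin n) (a : Fin n → ℂ) :
    UU o m a - C (wg o m a) * ∏ i ∈ Finset.univ.erase o, X i ^ (m - 1) ∈
      Ideal.span {(X o : MvPolynomial (Fin n) ℂ)} := by
  have h1 : (C (wg o m a) * ∏ i ∈ Finset.univ.erase o, X i ^ (m - 1) : MvPolynomial (Fin n) ℂ) =
      ∏ i ∈ Finset.univ.erase o, (C (wt m (a i)) * X i ^ (m - 1)) := by
    rw [wg_eq, map_prod, ← Finset.prod_mul_distrib]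
  rw [h1]
  exact prod_sub_prod_mem _ _ _ _ fun i _ => hmg_mod m hm i o (a i)

theorem eval_UU {o : Fin n} {m : ℕ} (hm : 2 ≤ m) {a b : Fin n → ℂ} (ha : a ∈ GG o m)
    (hb : b ∈ GG o m) : eval a (UU o m b) = if a = b then 1 else 0 := by
  have h := eval_lagr hm ha hb
  rw [lagr_eq, map_mul, map_pow, eval_X, (mem_GG.1 ha).1, one_pow, one_mul] at h
  exact h

/-- the singular point -/
noncomputable def pp (o : Fin n) : Fin n → ℂ := Pi.single o 1

theorem pp_mem (o : Fin n) (m : ℕ) : pp o ∈ GG o m := by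
  rw [mem_GG]
  refine ⟨by simp [pp], fun i hi => ?_⟩
  unfold pp
  rw [Pi.single_eq_of_ne hi]
  exact zero_mem_ZZ

theorem wg_pp (o : Fin n) (m : ℕ) (hm : 2 ≤ m) : wg o m (pp o) ≠ 0 := by
  rw [wg_eq]
  refine Finset.prod_ne_zero_iff.2 fun i hi => ?_
  unfold pp
  rw [Pi.single_eq_of_ne (Finset.ne_of_mem_erase hi), wt_zero hm]
  norm_num

theorem qq_pp (o : Fin n) : qq o (pp o) = 0 := by
  unfold qq pp
  apply Finset.sum_eq_zero
  intro i hi
  rw [Pi.single_eq_of_ne (Finset.ne_of_mem_erase hi)]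
  ring

theorem lagr_mem {o : Fin n} {d : ℕ} (hn : 2 ≤ n) (hd : 3 ≤ d) {a : Fin n → ℂ}
    (ha : a ∈ GG o (d - 1)) (hne : a ≠ pp o) : lagr o (d - 1) a ∈ jacIdeal (fam o d 0) := by
  have hm : 2 ≤ d - 1 := by omega
  set V := C (wg o (d - 1) (pp o)) * UU o (d - 1) a - C (wg o (d - 1) a) * UU o (d - 1) (pp o) with hV
  obtain ⟨r, hr⟩ : ∃ r, (n - 1) * (d - 1 - 1) = r + 1 := by
    have : 1 ≤ (n - 1) * (d - 1 - 1) := Nat.mul_pos (by omega) (by omega)
    exact ⟨(n - 1) * (d - 1 - 1) - 1, by omega⟩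
  have hVh : V.IsHomogeneous (r + 1) := by
    rw [← hr, hV]
    refine IsHomogeneous.sub ?_ ?_
    · have := (isHomogeneous_C (Fin n) (wg o (d - 1) (pp o))).mul (UU_isHomogeneous o (d - 1) hm a)
      rwa [zero_add] at this
    · have := (isHomogeneous_C (Fin n) (wg o (d - 1) a)).mul (UU_isHomogeneous o (d - 1) hm (pp o))
      rwa [zero_add] at this
  have hdvd : V ∈ Ideal.span {(X o : MvPolynomial (Fin n) ℂ)} := by
    have h1 := Ideal.mul_mem_left _ (C (wg o (d - 1) (pp o))) (UU_mod (d - 1) hm o a)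
    have h2 := Ideal.mul_mem_left _ (C (wg o (d - 1) a)) (UU_mod (d - 1) hm o (pp o))
    have h3 := Ideal.sub_mem _ h1 h2
    convert h3 using 1
    rw [hV]
    ring
  obtain ⟨V', hV'⟩ := Ideal.mem_span_singleton.1 hdvd
  set V'' := homogeneousComponent r V' with hV''
  have hVV : V = V'' * X o := by
    rw [hV'', ← homogeneousComponent_mul_of_isHomogeneous V' (X o) r 1 (isHomogeneous_X _ _),
      mul_comm V', ← hV', homogeneousComponent_eq_self hVh]
  have hFV : (pderiv o (fam o d 0) * V'').IsHomogeneous (n * (d - 1 - 1)) := by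
    have h1 := ((fam_isHomogeneous o d hd 0).pderiv (i := o)).mul
      (homogeneousComponent_isHomogeneous r V')
    have h2 : d - 1 + r = n * (d - 1 - 1) := by
      obtain ⟨k, rfl⟩ : ∃ k, n = k + 1 := ⟨n - 1, by omega⟩
      have : (k + 1) * (d - 1 - 1) = (k + 1 - 1) * (d - 1 - 1) + (d - 1 - 1) := by
        rw [Nat.add_sub_cancel]; ring
      omega
    rwa [h2] at h1
  have h1 := II_le hd 0 (grid_reduce (o := o) hm _ hFV)
  have h2 : pderiv o (fam o d 0) * V'' ∈ jacIdeal (fam o d 0) :=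
    Ideal.mul_mem_right _ _ (Ideal.subset_span ⟨o, rfl⟩)
  have h3 := Ideal.sub_mem _ h2 h1
  rw [sub_sub_cancel] at h3
  have hval : ∀ b ∈ GG o (d - 1), eval b (pderiv o (fam o d 0) * V'') =
      if b = a then Fo o d 0 a * wg o (d - 1) (pp o) else 0 := by
    intro b hb
    have hbo := (mem_GG.1 hb).1
    have e1 : eval b V'' = eval b V := by
      rw [hVV, map_mul, eval_X, hbo, mul_one]
    rw [map_mul, eval_pderiv_o' hd 0 hbo, e1, hV, map_sub, map_mul, map_mul, eval_C, eval_C,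
      eval_UU hm hb ha, eval_UU hm hb (pp_mem o _)]
    by_cases hba : b = a
    · subst hba
      rw [if_pos rfl, if_pos rfl, if_neg hne]
      ring
    · rw [if_neg hba, if_neg hba]
      by_cases hbp : b = pp o
      · rw [hbp, Fo, qq_pp]
        ring
      · rw [if_neg hbp]
        ring
  rw [Finset.sum_congr rfl (fun b hb => by rw [hval b hb])] at h3
  rw [Finset.sum_eq_single a] at h3
  · rw [if_pos rfl] at h3
    have h4 : Fo o d 0 a * wg o (d - 1) (pp o) ≠ 0 := by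
      refine mul_ne_zero (Fo_ne hd ?_) (wg_pp o _ hm)
      have h5 : ((d : ℂ) - 2) ≠ 0 := by
        have : ((d : ℂ) - 2) = ((d - 2 : ℕ) : ℂ) := by
          push_cast [Nat.cast_sub (by omega : 2 ≤ d)]; ring
        rw [this]
        exact_mod_cast (by omega : d - 2 ≠ 0)
      exact Ne.symm (mul_ne_zero h5 (qq_ne hm ha hne))
    have h5 := Ideal.mul_mem_left _ (C (Fo o d 0 a * wg o (d - 1) (pp o))⁻¹) h3
    rw [← mul_assoc, ← map_mul, inv_mul_cancel₀ h4, map_one, one_mul] at h5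
    exact h5
  · intro b _ hb
    rw [if_neg hb, map_zero, zero_mul]
  · intro h
    exact absurd ha h

/-- rank computation at the nodal form -/
theorem node_span {o : Fin n} {d : ℕ} (hn : 2 ≤ n) (hd : 3 ≤ d) (g : MvPolynomial (Fin n) ℂ)
    (hg : g.IsHomogeneous (n * (d - 2))) :
    g - C (eval (pp o) g) * X o ^ (n * (d - 2)) ∈ jacIdeal (fam o d 0) := by
  have hm : 2 ≤ d - 1 := by omega
  have e : d - 1 - 1 = d - 2 := by omega
  have key : ∀ g : MvPolynomial (Fin n) ℂ, g.IsHomogeneous (n * (d - 2)) →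
      g - C (eval (pp o) g) * lagr o (d - 1) (pp o) ∈ jacIdeal (fam o d 0) := by
    intro g hg
    have h1 := II_le hd 0 (grid_reduce (o := o) hm g (by rw [e]; exact hg))
    rw [← Finset.add_sum_erase _ _ (pp_mem o (d - 1))] at h1
    have h2 : ∑ a ∈ (GG o (d - 1)).erase (pp o), C (eval a g) * lagr o (d - 1) a ∈
        jacIdeal (fam o d 0) := Ideal.sum_mem _ fun a ha =>
      Ideal.mul_mem_left _ _ (lagr_mem hn hd (Finset.mem_of_mem_erase ha) (Finset.ne_of_mem_erase ha))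
    have h3 := Ideal.add_mem _ h1 h2
    convert h3 using 1
    ring
  have h1 := key g hg
  have h2 := key (X o ^ (n * (d - 2))) (isHomogeneous_X_pow _ _)
  have h3 : eval (pp o) (X o ^ (n * (d - 2)) : MvPolynomial (Fin n) ℂ) = 1 := by
    simp [pp]
  rw [h3, map_one, one_mul] at h2
  have h4 := Ideal.sub_mem _ h1 (Ideal.mul_mem_left _ (C (eval (pp o) g)) h2)
  convert h4 using 1
  ring

theorem eval_pp_jac {o : Fin n} {d : ℕ} (hd : 3 ≤ d) (g : MvPolynomial (Fin n) ℂ)
    (hg : g ∈ jacIdeal (fam o d 0)) : eval (pp o) g = 0 := by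
  unfold jacIdeal at hg
  have hle : Ideal.span (Set.range fun i => pderiv i (fam o d 0)) ≤ RingHom.ker (eval (pp o)) := by
    rw [Ideal.span_le]
    rintro _ ⟨j, rfl⟩
    change eval (pp o) _ = 0
    by_cases hj : j = o
    · subst hj
      rw [eval_pderiv_o' hd 0 (by simp [pp]), Fo, qq_pp]
      ring
    · exact eval_pderiv_ne hd 0 (pp_mem o _) j hj
  exact hle hg

end Pool.Agent.Helper56.Disc
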