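import Pool.Agent.Helper56.Disc.Family4

namespace Pool.Agent.Helper56.Disc

open MvPolynomial Matrix Filter Topology Submodule

variable {n : ℕ}

/-- the coefficient `v(t)` -/
noncomputable def vt (o : Fin n) (d : ℕ) (t : ℂ) : ℂ :=
  (KK o d)⁻¹ * ∑ a ∈ GG o (d - 1), wg o (d - 1) a / Fo o d t a

theorem vt_unique {o : Fin n} {d : ℕ} (hn : 2 ≤ n) (hd : 3 ≤ d) {t : ℂ}
    (ht : ∀ a ∈ GG o (d - 1), t ≠ (d - 2) * qq o a) (v : ℂ)
    (hv : X o ^ (n * (d - 2)) - C v * hess (fam o d t) ∈ jacIdeal (fam o d t)) : v = vt o d t := by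
  have hh : (hess (fam o d t)).IsHomogeneous (n * (d - 2)) :=
    hess_isHomogeneous _ (fam_isHomogeneous o d hd t)
  have hg : (X o ^ (n * (d - 2)) - C v * hess (fam o d t)).IsHomogeneous (n * (d - 2)) := by
    refine (isHomogeneous_X_pow _ _).sub ?_
    have := (isHomogeneous_C (Fin n) v).mul hh
    rwa [zero_add] at this
  have h1 := lamt_jac hn hd ht _ hg hv
  have h2 : lamt o d t (X o ^ (n * (d - 2)) - C v * hess (fam o d t)) =
      lamt o d t (X o ^ (n * (d - 2))) - v * lamt o d t (hess (fam o d t)) := by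
    unfold lamt
    rw [Finset.mul_sum, ← Finset.sum_sub_distrib]
    apply Finset.sum_congr rfl
    intro a _
    rw [map_sub, map_mul, eval_C]
    ring
  rw [h2, lamt_hess hd ht] at h1
  have h3 : lamt o d t (X o ^ (n * (d - 2))) =
      ∑ a ∈ GG o (d - 1), wg o (d - 1) a / Fo o d t a := by
    unfold lamt
    apply Finset.sum_congr rfl
    intro a ha
    rw [map_pow, eval_X, (mem_GG.1 ha).1, one_pow]
    ring
  rw [h3] at h1
  unfold vt
  have := KK_ne (o := o) hd
  field_simp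
  linear_combination -h1

theorem dm2_ne {d : ℕ} (hd : 3 ≤ d) : ((d : ℂ) - 2) ≠ 0 := by
  have : ((d : ℂ) - 2) = ((d - 2 : ℕ) : ℂ) := by
    push_cast [Nat.cast_sub (by omega : 2 ≤ d)]; ring
  rw [this]
  exact_mod_cast (by omega : d - 2 ≠ 0)

theorem good_eventually {o : Fin n} {d : ℕ} (hd : 3 ≤ d) :
    ∀ᶠ t in 𝓝[≠] (0 : ℂ), ∀ a ∈ GG o (d - 1), t ≠ (d - 2) * qq o a := by
  rw [Filter.eventually_all_finset]
  intro a ha
  by_cases h : a = pp o
  · subst h
    rw [qq_pp, mul_zero]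
    exact eventually_mem_nhdsWithin
  · have h1 : (d - 2) * qq o a ≠ 0 := mul_ne_zero (dm2_ne hd) (qq_ne (by omega) ha h)
    exact (eventually_ne_nhds (Ne.symm h1)).filter_mono nhdsWithin_le_nhds

theorem vt_lim {o : Fin n} {d : ℕ} (hd : 3 ≤ d) : ∃ L : ℂ,
    Tendsto (fun t => t * vt o d t) (𝓝[≠] (0 : ℂ)) (𝓝 L) := by
  have hterm : ∀ a ∈ GG o (d - 1), ∃ L : ℂ,
      Tendsto (fun t => wg o (d - 1) a * (t / Fo o d t a)) (𝓝[≠] (0 : ℂ)) (𝓝 L) := by
    intro a ha
    have hd0 : (d : ℂ) ≠ 0 := by exact_mod_cast (by omega : d ≠ 0)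
    by_cases h : a = pp o
    · subst h
      refine ⟨wg o (d - 1) (pp o) * (1 / d), ?_⟩
      refine (tendsto_const_nhds (x := wg o (d - 1) (pp o) * (1 / (d : ℂ)))).congr' ?_
      filter_upwards [eventually_mem_nhdsWithin] with t ht
      have ht' : t ≠ 0 := ht
      unfold Fo
      rw [qq_pp, mul_zero, sub_zero]
      congr 1
      field_simp
    · refine ⟨wg o (d - 1) a * (0 / Fo o d 0 a), ?_⟩
      have h1 : Fo o d 0 a ≠ 0 := Fo_ne hd (Ne.symm
        (mul_ne_zero (dm2_ne hd) (qq_ne (by omega) ha h)))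
      have h2 : Continuous (fun t => Fo o d t a) := by unfold Fo; fun_prop
      refine Tendsto.const_mul _ (Tendsto.div ?_ ?_ h1)
      · exact tendsto_id.mono_left nhdsWithin_le_nhds
      · exact (h2.tendsto 0).mono_left nhdsWithin_le_nhds
  choose! L hL using hterm
  refine ⟨(KK o d)⁻¹ * ∑ a ∈ GG o (d - 1), L a, ?_⟩
  have h1 := (tendsto_finsetSum (GG o (d - 1)) hL).const_mul ((KK o d)⁻¹)
  refine h1.congr ?_
  intro t
  unfold vt
  rw [← mul_assoc, mul_comm t, mul_assoc]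
  congr 1
  rw [Finset.mul_sum]
  apply Finset.sum_congr rfl
  intro a _
  ring

theorem form_line (o : Fin n) (d : ℕ) (hd : 3 ≤ d) (t : ℂ) :
    form ((cv (fam o d 0) : Mon n d → ℂ) + t • (cv (X o ^ d) : Mon n d → ℂ)) = fam o d t := by
  rw [form_add, form_smul, form_cv _ (fam_isHomogeneous o d hd 0), form_cv _ (isHomogeneous_X_pow _ _)]
  unfold fam
  simp

theorem isLeast_one {d : ℕ} (hn : 2 ≤ n) (hd : 3 ≤ d) (Δ : MvPolynomial (Mon n d) ℂ)
    (hΔ : IsDiscriminant Δ) : PowerExtends Δ 1 := by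
  classical
  apply powerExtends_one (by omega) Δ
  set o : Fin n := ⟨0, by omega⟩ with ho
  have ha : (n * (d - 2) - (d - 1)) + (d - 1) = n * (d - 2) := by
    apply Nat.sub_add_cancel
    obtain ⟨k, rfl⟩ : ∃ k, n = k + 2 := ⟨n - 2, by omega⟩
    obtain ⟨l, rfl⟩ : ∃ l, d = l + 3 := ⟨d - 3, by omega⟩
    have e1 : l + 3 - 2 = l + 1 := by omega
    have e2 : l + 3 - 1 = l + 2 := by omega
    rw [e1, e2]
    nlinarith [Nat.zero_le (k * l)]
  set α0 : Mon n (n * (d - 2)) := ⟨Finsupp.single o (n * (d - 2)), mem_mon _ (Finsupp.degree_single _ _)⟩ with hα0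
  have hne : Nonempty (Mon n (n * (d - 2) - (d - 1))) :=
    ⟨⟨Finsupp.single o (n * (d - 2) - (d - 1)), mem_mon _ (Finsupp.degree_single _ _)⟩⟩
  set x0 : Mon n (n * (d - 2)) → ℂ := cv (X o ^ (n * (d - 2))) with hx0
  have hfx0 : form x0 = X o ^ (n * (d - 2)) := form_cv _ (isHomogeneous_X_pow _ _)
  have hfc0 : form (cv (fam o d 0) : Mon n d → ℂ) = fam o d 0 :=
    form_cv _ (fam_isHomogeneous o d hd 0)
  obtain ⟨L, hL⟩ := vt_lim (o := o) hd
  obtain ⟨J0, hJ0⟩ := exists_minor (by omega : 0 < n) (by omega : 2 ≤ d) ha α0 Δ hΔ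
    (cv (fam o d 0)) (cv (X o ^ d)) x0 (by rw [hfc0]; exact fam_zero_deg hd)
    (by
      intro hmem
      have h1 := form_mem_of_mem_W ha _ _ hmem
      rw [hfx0, hfc0] at h1
      have h2 := eval_pp_jac hd _ h1
      simp [pp] at h2)
    (by
      intro x
      have h1 := node_span (o := o) hn hd (form x) (form_isHomogeneous x)
      have h2 : x - (eval (pp o) (form x)) • x0 ∈
          W (n * (d - 2)) (n * (d - 2) - (d - 1)) (cv (fam o d 0) : Mon n d → ℂ) := by
        apply mem_W_of_form_mem ha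
        rw [hfc0]
        have e1 : x - (eval (pp o) (form x)) • x0 = x + (-(eval (pp o) (form x))) • x0 := by
          rw [neg_smul, sub_eq_add_neg]
        rw [e1, form_add, form_smul, hfx0, map_neg]
        convert h1 using 1
        ring
      rw [Submodule.mem_sup]
      exact ⟨_, h2, (eval (pp o) (form x)) • x0,
        Submodule.smul_mem _ _ (Submodule.mem_span_singleton_self _), sub_add_cancel _ _⟩)
    (vt o d) L
    (by
      filter_upwards [good_eventually (o := o) hd] with t ht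
      rw [form_line o d hd t]
      refine ⟨fam_nondeg hd ht, fun v' hv' => ?_⟩
      rw [hfx0] at hv'
      exact vt_unique hn hd ht v' hv') hL
  exact exists_extension (by omega : 0 < n) (by omega : 2 ≤ d) ha α0 Δ hΔ J0 hJ0

end Pool.Agent.Helper56.Disc
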