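import Pool.Agent.Helper56.Disc.Nodes

namespace Pool.Agent.Helper56.Disc

open MvPolynomial

variable {n : ℕ}

/-- the one variable node sets -/
noncomputable def tt (o : Fin n) (m : ℕ) (i : Fin n) : Finset ℂ := if i = o then {1} else ZZ m

/-- the grid -/
noncomputable def GG (o : Fin n) (m : ℕ) : Finset (Fin n → ℂ) := Fintype.piFinset (tt o m)

theorem mem_GG {o : Fin n} {m : ℕ} {a : Fin n → ℂ} :
    a ∈ GG o m ↔ a o = 1 ∧ ∀ i, i ≠ o → a i ∈ ZZ m := by
  unfold GG tt
  rw [Fintype.mem_piFinset]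
  constructor
  · intro h
    refine ⟨by simpa using h o, fun i hi => by simpa [hi] using h i⟩
  · rintro ⟨h1, h2⟩ i
    by_cases hi : i = o
    · subst hi; simp [h1]
    · simp [hi, h2 i hi]

/-- the factors of the grid Lagrange polynomials -/
noncomputable def psi (o : Fin n) (m : ℕ) (i : Fin n) (b : ℂ) : MvPolynomial (Fin n) ℂ :=
  if i = o then X o ^ (m - 1) else hmg m (X i) (X o) (ell m b)

/-- grid Lagrange polynomials, homogeneous of degree `n (m - 1)` -/
noncomputable def lagr (o : Fin n) (m : ℕ) (a : Fin n → ℂ) : MvPolynomial (Fin n) ℂ :=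
  ∏ i, psi o m i (a i)

/-- the ideal of the grid (homogeneous version) -/
noncomputable def II (o : Fin n) (m : ℕ) : Ideal (MvPolynomial (Fin n) ℂ) :=
  Ideal.span {p | ∃ i, i ≠ o ∧ p = X i ^ m - X i * X o ^ (m - 1)}

theorem sum_tt_psi {o : Fin n} {m : ℕ} (hm : 2 ≤ m) (i : Fin n) (r : ℕ) (hr : i ≠ o → r ≤ m - 1) :
    ∑ b ∈ tt o m i, C (b ^ r) * psi o m i b =
      if i = o then X o ^ (m - 1) else X i ^ r * X o ^ (m - 1 - r) := by
  unfold tt psi
  by_cases hi : i = o
  · simp [hi]
  · simp only [hi, if_false]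
    rw [hmg_identity m (X i) (X o) r (hr hi) hm]
    rfl

theorem monomial_reduced {o : Fin n} {m : ℕ} (hm : 2 ≤ m) (α : Fin n →₀ ℕ)
    (hα : α.degree = n * (m - 1)) (hred : ∀ i, i ≠ o → α i ≤ m - 1) :
    (monomial α (1 : ℂ)) = ∑ a ∈ GG o m, C (eval a (monomial α (1 : ℂ))) * lagr o m a := by
  have h1 : ∑ a ∈ GG o m, C (eval a (monomial α (1 : ℂ))) * lagr o m a =
      ∑ a ∈ GG o m, ∏ i, (C (a i ^ α i) * psi o m i (a i)) := by
    apply Finset.sum_congr rfl
    intro a _
    rw [eval_monomial, one_mul, Finsupp.prod_fintype _ _ (by simp), map_prod, lagr,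
      ← Finset.prod_mul_distrib]
  rw [h1, GG, ← Finset.prod_univ_sum (tt o m) (fun i b => C (b ^ α i) * psi o m i b)]
  have h2 : ∀ i, ∑ b ∈ tt o m i, C (b ^ α i) * psi o m i b =
      if i = o then X o ^ (m - 1) else X i ^ α i * X o ^ (m - 1 - α i) :=
    fun i => sum_tt_psi hm i (α i) (hred i)
  rw [Finset.prod_congr rfl (fun i _ => h2 i)]
  rw [monomial_eq, map_one, one_mul, Finsupp.prod_fintype _ _ (by simp)]
  rw [← Finset.mul_prod_erase _ _ (Finset.mem_univ o), ← Finset.mul_prod_erase _ _ (Finset.mem_univ o)]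
  rw [if_pos rfl]
  have h3 : ∏ x ∈ Finset.univ.erase o, (if x = o then (X o : MvPolynomial (Fin n) ℂ) ^ (m - 1)
      else X x ^ α x * X o ^ (m - 1 - α x)) =
      (∏ x ∈ Finset.univ.erase o, (X x : MvPolynomial (Fin n) ℂ) ^ α x) *
        X o ^ (∑ x ∈ Finset.univ.erase o, (m - 1 - α x)) := by
    rw [← Finset.prod_pow_eq_pow_sum, ← Finset.prod_mul_distrib]
    apply Finset.prod_congr rfl
    intro x hx
    rw [if_neg (Finset.ne_of_mem_erase hx)]
  rw [h3]
  have h4 : α o = (m - 1) + ∑ x ∈ Finset.univ.erase o, (m - 1 - α x) := by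
    have h5 : α o + ∑ x ∈ Finset.univ.erase o, α x = n * (m - 1) := by
      rw [Finset.add_sum_erase _ _ (Finset.mem_univ o), ← hα, Finsupp.degree_apply]
      symm
      apply Finset.sum_subset (Finset.subset_univ _)
      intro x _ hx
      simpa using hx
    have h6 : ∑ x ∈ Finset.univ.erase o, α x + ∑ x ∈ Finset.univ.erase o, (m - 1 - α x) =
        (n - 1) * (m - 1) := by
      rw [← Finset.sum_add_distrib]
      have : ∀ x ∈ Finset.univ.erase o, α x + (m - 1 - α x) = m - 1 := by
        intro x hx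
        have := hred x (Finset.ne_of_mem_erase hx)
        omega
      rw [Finset.sum_congr rfl this, Finset.sum_const, Finset.card_erase_of_mem (Finset.mem_univ o),
        Finset.card_univ, Fintype.card_fin, smul_eq_mul]
    have hn : 0 < n := o.pos
    have h7 : n * (m - 1) = (n - 1) * (m - 1) + (m - 1) := by
      obtain ⟨k, rfl⟩ : ∃ k, n = k + 1 := ⟨n - 1, by omega⟩
      rw [Nat.add_sub_cancel]
      ring
    omega
  conv_lhs => rw [h4, pow_add]
  ring

theorem monomial_grid {o : Fin n} {m : ℕ} (hm : 2 ≤ m) : ∀ (N : ℕ) (α : Fin n →₀ ℕ),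
    α.degree = n * (m - 1) → ∑ x ∈ Finset.univ.erase o, α x = N →
    (monomial α (1 : ℂ)) - ∑ a ∈ GG o m, C (eval a (monomial α (1 : ℂ))) * lagr o m a ∈ II o m := by
  intro N
  induction N using Nat.strong_induction_on with
  | _ N ih =>
    intro α hα hN
    by_cases hred : ∀ i, i ≠ o → α i ≤ m - 1
    · rw [← monomial_reduced hm α hα hred, sub_self]
      exact Ideal.zero_mem _
    · push Not at hred
      obtain ⟨i, hi, hi2⟩ := hred
      set α' := α - Finsupp.single i m with hα'
      set β := α' + Finsupp.single i 1 + Finsupp.single o (m - 1) with hβ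
      have hαe : α = α' + Finsupp.single i m := by
        ext j
        simp only [hα', Finsupp.add_apply, Finsupp.tsub_apply, Finsupp.single_apply]
        split_ifs with hj
        · subst hj; omega
        · omega
      have e1 : (monomial α (1 : ℂ)) = monomial α' 1 * X i ^ m := by
        rw [X_pow_eq_monomial, monomial_mul, mul_one, ← hαe]
      have e2 : (monomial β (1 : ℂ)) = monomial α' 1 * (X i * X o ^ (m - 1)) := by
        rw [X_pow_eq_monomial, X, monomial_mul, monomial_mul, mul_one, mul_one, hβ, add_assoc]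
      have hdiff : (monomial α (1 : ℂ)) - monomial β 1 ∈ II o m := by
        rw [e1, e2, ← mul_sub]
        exact Ideal.mul_mem_left _ _ (Ideal.subset_span ⟨i, hi, rfl⟩)
      have hev : ∀ a ∈ GG o m, eval a (monomial α (1 : ℂ)) = eval a (monomial β (1 : ℂ)) := by
        intro a ha
        obtain ⟨ha1, ha2⟩ := mem_GG.1 ha
        rw [e1, e2]
        simp only [map_mul, map_pow, eval_X, ha1, one_pow, mul_one, pow_ZZ hm (ha2 i hi)]
      have hβd : β.degree = n * (m - 1) := by
        rw [← hα, hβ, hαe]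
        simp only [map_add, Finsupp.degree_single]
        omega
      have hβN : ∑ x ∈ Finset.univ.erase o, β x + (m - 1) = N := by
        rw [← hN, hαe]
        simp only [hβ, Finsupp.add_apply, Finset.sum_add_distrib]
        have s1 : ∀ r : ℕ, ∑ x ∈ Finset.univ.erase o, (Finsupp.single i r) x = r := by
          intro r
          rw [Finset.sum_eq_single i]
          · simp
          · intro j _ hj
            rw [Finsupp.single_apply, if_neg (Ne.symm hj)]
          · intro h
            exfalso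
            exact h (Finset.mem_erase.2 ⟨hi, Finset.mem_univ _⟩)
        have s2 : ∑ x ∈ Finset.univ.erase o, (Finsupp.single o (m - 1)) x = 0 := by
          apply Finset.sum_eq_zero
          intro j hj
          rw [Finsupp.single_apply, if_neg (Ne.symm (Finset.ne_of_mem_erase hj))]
        rw [s1, s1, s2]
        omega
      have h5 := ih _ (by omega) β hβd rfl
      have h6 := Ideal.add_mem _ hdiff h5
      rw [Finset.sum_congr rfl (fun a ha => by rw [hev a ha])]
      convert h6 using 1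
      ring

theorem grid_reduce {o : Fin n} {m : ℕ} (hm : 2 ≤ m) (g : MvPolynomial (Fin n) ℂ)
    (hg : g.IsHomogeneous (n * (m - 1))) :
    g - ∑ a ∈ GG o m, C (eval a g) * lagr o m a ∈ II o m := by
  have h1 : g - ∑ a ∈ GG o m, C (eval a g) * lagr o m a =
      ∑ α ∈ g.support, C (coeff α g) * ((monomial α (1 : ℂ)) -
        ∑ a ∈ GG o m, C (eval a (monomial α (1 : ℂ))) * lagr o m a) := by
    simp only [mul_sub, Finset.sum_sub_distrib]
    congr 1
    · conv_lhs => rw [g.as_sum]
      apply Finset.sum_congr rfl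
      intro α _
      rw [C_mul_monomial, mul_one]
    · simp only [Finset.mul_sum]
      rw [Finset.sum_comm]
      apply Finset.sum_congr rfl
      intro a _
      simp only [← mul_assoc, ← Finset.sum_mul, ← map_mul]
      congr 1
      rw [← map_sum]
      congr 1
      conv_lhs => rw [g.as_sum, map_sum]
      apply Finset.sum_congr rfl
      intro α _
      rw [eval_monomial, eval_monomial, one_mul]
  rw [h1]
  refine Ideal.sum_mem _ fun α hα => Ideal.mul_mem_left _ _ ?_
  exact monomial_grid hm _ α (degree_of_isHomogeneous hg (mem_support_iff.1 hα)) rfl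

theorem hmg_map {R S : Type*} [CommRing R] [CommRing S] [Algebra ℂ R] [Algebra ℂ S]
    (φ : R →ₐ[ℂ] S) (m : ℕ) (y z : R) (p : Polynomial ℂ) :
    φ (hmg m y z p) = hmg m (φ y) (φ z) p := by
  unfold hmg
  rw [map_sum]
  apply Finset.sum_congr rfl
  intro j _
  rw [map_mul, map_mul, map_pow, map_pow, AlgHom.commutes]

theorem eval_hmg {m : ℕ} (hm : 2 ≤ m) (a : Fin n → ℂ) (i o : Fin n) (ha : a o = 1)
    (p : Polynomial ℂ) (hp : p.natDegree ≤ m - 1) :
    eval a (hmg m (X i) (X o) p) = p.eval (a i) := by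
  have := hmg_map (aeval a : MvPolynomial (Fin n) ℂ →ₐ[ℂ] ℂ) m (X i) (X o) p
  rw [aeval_eq_eval] at this
  change eval a _ = _ at this
  rw [this]
  rw [eval_X, eval_X, ha]
  exact hmg_eval hm _ _ hp

theorem eval_psi {o : Fin n} {m : ℕ} (hm : 2 ≤ m) {a : Fin n → ℂ} (ha : a ∈ GG o m) (i : Fin n)
    {b : ℂ} (hb : b ∈ tt o m i) : eval a (psi o m i b) = if a i = b then 1 else 0 := by
  obtain ⟨ha1, ha2⟩ := mem_GG.1 ha
  unfold psi
  by_cases hi : i = o
  · subst hi
    have hb1 : b = 1 := by simpa [tt] using hb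
    rw [if_pos rfl, map_pow, eval_X, ha1, hb1]
    simp
  · have hb1 : b ∈ ZZ m := by simpa [tt, hi] using hb
    rw [if_neg hi, eval_hmg hm a i o ha1 _ (natDegree_ell hm hb1), eval_ell (ha2 i hi) hb1]

theorem eval_lagr {o : Fin n} {m : ℕ} (hm : 2 ≤ m) {a b : Fin n → ℂ} (ha : a ∈ GG o m)
    (hb : b ∈ GG o m) : eval a (lagr o m b) = if a = b then 1 else 0 := by
  unfold lagr
  rw [map_prod]
  have hb' : ∀ i, b i ∈ tt o m i := Fintype.mem_piFinset.1 hb
  rw [Finset.prod_congr rfl (fun i _ => eval_psi hm ha i (hb' i))]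
  split_ifs with h
  · subst h
    simp
  · obtain ⟨i, hi⟩ : ∃ i, a i ≠ b i := by
      by_contra hcon
      push Not at hcon
      exact h (funext hcon)
    exact Finset.prod_eq_zero (Finset.mem_univ i) (if_neg hi)

/-- the product weights -/
noncomputable def wi (o : Fin n) (m : ℕ) (i : Fin n) (b : ℂ) : ℂ := if i = o then 1 else wt m b

/-- the product weights -/
noncomputable def wg (o : Fin n) (m : ℕ) (a : Fin n → ℂ) : ℂ := ∏ i, wi o m i (a i)

theorem sum_wg_prod {o : Fin n} {m : ℕ} (φ : Fin n → ℂ → ℂ) :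
    ∑ a ∈ GG o m, wg o m a * ∏ i, φ i (a i) = ∏ i, ∑ b ∈ tt o m i, wi o m i b * φ i b := by
  rw [Finset.prod_univ_sum]
  apply Finset.sum_congr rfl
  intro a _
  rw [wg, ← Finset.prod_mul_distrib]

theorem sum_tt_wi {o : Fin n} {m : ℕ} (hm : 2 ≤ m) {i : Fin n} (hi : i ≠ o) (r : ℕ)
    (hr : r ≤ m - 1) : ∑ b ∈ tt o m i, wi o m i b * b ^ r = if r = m - 1 then 1 else 0 := by
  unfold tt wi
  simp only [hi, if_false]
  rw [← sum_wt hm r hr]
  apply Finset.sum_congr rfl
  intro b _
  ring

/-- the Euler-Jacobi relation on the grid -/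
theorem sum_wg_eval {o : Fin n} {m : ℕ} (hm : 2 ≤ m) (p : MvPolynomial (Fin n) ℂ) (r : ℕ)
    (hp : p.IsHomogeneous r) (hr : r < (n - 1) * (m - 1)) :
    ∑ a ∈ GG o m, wg o m a * eval a p = 0 := by
  have h1 : ∀ a, eval a p = ∑ α ∈ p.support, coeff α p * ∏ i, a i ^ α i := by
    intro a
    rw [eval_eq']
  simp only [h1, Finset.mul_sum]
  rw [Finset.sum_comm]
  apply Finset.sum_eq_zero
  intro α hα
  have hdeg := degree_of_isHomogeneous hp (mem_support_iff.1 hα)
  have h2 : ∑ a ∈ GG o m, wg o m a * (coeff α p * ∏ i, a i ^ α i) =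
      coeff α p * ∑ a ∈ GG o m, wg o m a * ∏ i, a i ^ α i := by
    rw [Finset.mul_sum]
    apply Finset.sum_congr rfl
    intro a _
    ring
  rw [h2, sum_wg_prod (fun i b => b ^ α i)]
  obtain ⟨i, hi, hi2⟩ : ∃ i, i ≠ o ∧ α i < m - 1 := by
    by_contra hcon
    push Not at hcon
    have h3 : (n - 1) * (m - 1) ≤ ∑ x ∈ Finset.univ.erase o, α x := by
      calc (n - 1) * (m - 1) = ∑ x ∈ Finset.univ.erase o, (m - 1) := by
            rw [Finset.sum_const, Finset.card_erase_of_mem (Finset.mem_univ o),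
              Finset.card_univ, Fintype.card_fin, smul_eq_mul]
        _ ≤ _ := Finset.sum_le_sum fun x hx => hcon x (Finset.ne_of_mem_erase hx)
    have h4 : ∑ x ∈ Finset.univ.erase o, α x ≤ α.degree := by
      have h5 : α.degree = ∑ x, α x := by
        rw [Finsupp.degree_apply]
        apply Finset.sum_subset (Finset.subset_univ _)
        intro x _ hx
        simpa using hx
      rw [h5]
      exact Finset.sum_le_sum_of_subset (Finset.subset_univ _)
    omega
  rw [Finset.prod_eq_zero (Finset.mem_univ i), mul_zero]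
  rw [sum_tt_wi hm hi _ hi2.le, if_neg hi2.ne]

end Pool.Agent.Helper56.Disc
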