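import Mathlib

namespace Pool.Agent.Helper56.Disc

open Matrix

variable {R : Type*} [CommRing R] {σ : Type*} [Fintype σ] [DecidableEq σ]

/-- The module of Koszul syzygies of a family `u`. -/
def koszul (u : σ → R) : Submodule R (σ → R) :=
  Submodule.span R {r | ∃ i j, r = u j • Pi.single i (1 : R) - u i • Pi.single j (1 : R)}

/-- All syzygies of `u` are Koszul syzygies. -/
def KoszulExact (u : σ → R) : Prop := ∀ r : σ → R, ∑ j, r j * u j = 0 → r ∈ koszul u

omit [Fintype σ] in
theorem koszul_gen (u : σ → R) (i j : σ) :
    u j • Pi.single i (1 : R) - u i • Pi.single j (1 : R) ∈ koszul u :=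
  Submodule.subset_span ⟨i, j, rfl⟩

theorem det_koszul_row (Q : Matrix σ σ R) (k : σ) (u w : σ → R)
    (hw : ∀ l, l ≠ k → (Q.mulVec u) l = w l) (r : σ → R) (hr : r ∈ koszul u) :
    (Q.updateRow k r).det ∈ Ideal.span (Set.range w) := by
  unfold koszul at hr
  induction hr using Submodule.span_induction with
  | mem x hx =>
    obtain ⟨i, j, rfl⟩ := hx
    have key : ∀ i j, u j * (Q.updateRow k (Pi.single i 1)).det -
        u i * (Q.updateRow k (Pi.single j 1)).det ∈ Ideal.span (Set.range w) := by
      intro i j
      set Qi := Q.updateRow k (Pi.single i 1) with hQi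
      have h1 : (Qi.adjugate * Qi).mulVec u = (Qi.det • (1 : Matrix σ σ R)).mulVec u := by
        rw [adjugate_mul]
      rw [← mulVec_mulVec, smul_mulVec, one_mulVec] at h1
      have h2 := congrFun h1 j
      rw [Pi.smul_apply, smul_eq_mul] at h2
      have h3 : (Qi.adjugate.mulVec (Qi.mulVec u)) j =
          ∑ l, Qi.adjugate j l * (Qi.mulVec u) l := rfl
      rw [h3] at h2
      have hk : (Qi.mulVec u) k = u i := by
        simp [hQi, mulVec, dotProduct, updateRow_self, Pi.single_apply]
      have hl : ∀ l, l ≠ k → (Qi.mulVec u) l = w l := by
        intro l hl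
        rw [← hw l hl]
        simp [hQi, mulVec, updateRow_ne hl]
      have hadj : Qi.adjugate j k = (Q.updateRow k (Pi.single j 1)).det := by
        rw [adjugate_apply, hQi, updateRow_idem]
      rw [← Finset.add_sum_erase _ _ (Finset.mem_univ k), hk, hadj] at h2
      have h4 : u j * Qi.det - u i * (Q.updateRow k (Pi.single j 1)).det =
          ∑ l ∈ Finset.univ.erase k, Qi.adjugate j l * (Qi.mulVec u) l := by
        linear_combination -h2
      rw [h4]
      refine Ideal.sum_mem _ fun l hl' => ?_
      rw [hl l (Finset.ne_of_mem_erase hl')]
      exact Ideal.mul_mem_left _ _ (Ideal.subset_span ⟨l, rfl⟩)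
    rw [sub_eq_add_neg, det_updateRow_add, det_updateRow_smul, ← neg_smul, det_updateRow_smul]
    have := key i j
    rwa [sub_eq_add_neg, ← neg_mul] at this
  | zero =>
    have : (Q.updateRow k (0 : σ → R)).det = 0 :=
      det_eq_zero_of_row_eq_zero k (by intro j; rw [updateRow_self]; rfl)
    rw [this]
    exact Ideal.zero_mem _
  | add x y _ _ h1 h2 =>
    rw [det_updateRow_add]
    exact Ideal.add_mem _ h1 h2
  | smul a x _ h1 =>
    rw [det_updateRow_smul]
    exact Ideal.mul_mem_left _ _ h1

/-- Two matrices with the same product with `u` have determinants congruent modulo that product. -/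
theorem det_congr_of_mulVec (u : σ → R) (hu : KoszulExact u) (M M' : Matrix σ σ R) (w : σ → R)
    (h1 : M.mulVec u = w) (h2 : M'.mulVec u = w) :
    M.det - M'.det ∈ Ideal.span (Set.range w) := by
  classical
  have key : ∀ s : Finset σ,
      M.det - (Matrix.of fun i => if i ∈ s then M' i else M i).det ∈ Ideal.span (Set.range w) := by
    intro s
    induction s using Finset.induction_on with
    | empty =>
      have : (Matrix.of fun i => if i ∈ (∅ : Finset σ) then M' i else M i) = M := by
        ext i j; simp
      rw [this, sub_self]
      exact Ideal.zero_mem _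
    | insert k s hk ih =>
      set N := (Matrix.of fun i => if i ∈ s then M' i else M i) with hN
      have e1 : N = N.updateRow k (M k) := by
        ext i j
        by_cases hi : i = k
        · subst hi
          simp [hN, hk]
        · rw [updateRow_ne hi]
      have e2 : (Matrix.of fun i => if i ∈ insert k s then M' i else M i) =
          N.updateRow k (M' k) := by
        ext i j
        by_cases hi : i = k
        · subst hi
          simp
        · rw [updateRow_ne hi]
          simp [hN, hi]
      have hNw : ∀ l, (N.mulVec u) l = w l := by
        intro l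
        by_cases hl : l ∈ s
        · have : (N.mulVec u) l = (M'.mulVec u) l := by simp [hN, mulVec, hl]
          rw [this, h2]
        · have : (N.mulVec u) l = (M.mulVec u) l := by simp [hN, mulVec, hl]
          rw [this, h1]
      have e3 : N.det - (N.updateRow k (M' k)).det = (N.updateRow k (M k - M' k)).det := by
        have : M k - M' k = M k + (-1 : R) • M' k := by
          ext; simp [sub_eq_add_neg]
        rw [this, det_updateRow_add, det_updateRow_smul, ← e1]
        ring
      rw [e2]
      have e4 : M.det - (N.updateRow k (M' k)).det = (M.det - N.det) +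
          (N.updateRow k (M k - M' k)).det := by
        rw [← e3]; ring
      rw [e4]
      refine Ideal.add_mem _ ih (det_koszul_row N k u w (fun l _ => hNw l) _ (hu _ ?_))
      have a1 : ∑ j, M k j * u j = w k := congrFun h1 k
      have a2 : ∑ j, M' k j * u j = w k := congrFun h2 k
      simp only [Pi.sub_apply, sub_mul, Finset.sum_sub_distrib, a1, a2, sub_self]
  have := key Finset.univ
  have e : (Matrix.of fun i => if i ∈ (Finset.univ : Finset σ) then M' i else M i) = M' := by
    ext i j; simp
  rwa [e] at this

theorem exists_coeffs_of_mem_span_image (u : σ → R) (s : Set σ) (x : R)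
    (hx : x ∈ Ideal.span (u '' s)) : ∃ c : σ → R, (∀ j, j ∉ s → c j = 0) ∧ x = ∑ j, c j * u j := by
  unfold Ideal.span at hx
  induction hx using Submodule.span_induction with
  | mem x hx =>
    obtain ⟨i, hi, rfl⟩ := hx
    refine ⟨Pi.single i 1, ?_, ?_⟩
    · intro j hj
      have : j ≠ i := by rintro rfl; exact hj hi
      simp [this]
    · simp [Pi.single_apply]
  | zero => exact ⟨0, by simp, by simp⟩
  | add x y _ _ h1 h2 =>
    obtain ⟨c, hc, rfl⟩ := h1
    obtain ⟨c', hc', rfl⟩ := h2
    refine ⟨c + c', fun j hj => by simp [hc j hj, hc' j hj], ?_⟩
    simp [add_mul, Finset.sum_add_distrib]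
  | smul a x _ h1 =>
    obtain ⟨c, hc, rfl⟩ := h1
    refine ⟨a • c, fun j hj => by simp [hc j hj], ?_⟩
    simp [Finset.mul_sum, mul_assoc]

/-- syzygies of variables are Koszul -/
theorem koszulExact_X (S : Type*) [CommRing S] :
    KoszulExact (fun j : σ => (MvPolynomial.X j : MvPolynomial σ S)) := by
  classical
  have key : ∀ s : Finset σ, ∀ r : σ → MvPolynomial σ S, (∀ j, j ∉ s → r j = 0) →
      ∑ j, r j * MvPolynomial.X j = 0 → r ∈ koszul (fun j : σ => (MvPolynomial.X j : MvPolynomial σ S)) := by
    intro s
    induction s using Finset.induction_on with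
    | empty =>
      intro r hr _
      have : r = 0 := by
        ext1 j
        exact hr j (by simp)
      rw [this]
      exact Submodule.zero_mem _
    | insert k s hk ih =>
      intro r hr hsum
      have hsum2 : r k * MvPolynomial.X k = - ∑ j ∈ s, r j * MvPolynomial.X j := by
        have h1 : ∑ j ∈ insert k s, r j * (MvPolynomial.X j : MvPolynomial σ S) = 0 := by
          rw [← hsum]
          apply Finset.sum_subset (Finset.subset_univ _)
          intro j _ hj
          rw [hr j hj, zero_mul]
        rw [Finset.sum_insert hk] at h1
        linear_combination h1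
      have hmem : r k ∈ Ideal.span ((MvPolynomial.X : σ → MvPolynomial σ S) '' (s : Set σ)) := by
        rw [MvPolynomial.mem_ideal_span_X_image]
        intro m hm
        have h2 : r k * MvPolynomial.X k ∈
            Ideal.span ((MvPolynomial.X : σ → MvPolynomial σ S) '' (s : Set σ)) := by
          rw [hsum2]
          refine Submodule.neg_mem _ (Ideal.sum_mem _ fun j hj => ?_)
          exact Ideal.mul_mem_left _ _ (Ideal.subset_span ⟨j, hj, rfl⟩)
        rw [MvPolynomial.mem_ideal_span_X_image] at h2
        have h3 : m + Finsupp.single k 1 ∈ (r k * MvPolynomial.X k).support := by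
          rw [MvPolynomial.mem_support_iff, MvPolynomial.coeff_mul_X]
          exact MvPolynomial.mem_support_iff.1 hm
        obtain ⟨i, hi, hi2⟩ := h2 _ h3
        refine ⟨i, hi, ?_⟩
        have hik : k ≠ i := by
          rintro rfl
          exact hk hi
        simpa [Finsupp.single_apply, hik] using hi2
      obtain ⟨c, hc, hrk⟩ := exists_coeffs_of_mem_span_image _ _ _ hmem
      set X' : σ → MvPolynomial σ S := fun j => MvPolynomial.X j with hX'
      set r' : σ → MvPolynomial σ S := fun j =>
        if j = k then 0 else r j + c j * MvPolynomial.X k with hr'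
      have hck : c k = 0 := hc k (by simpa using hk)
      have hdiff : r = r' + ∑ j, c j • (X' j • Pi.single k (1 : MvPolynomial σ S) -
          X' k • Pi.single j (1 : MvPolynomial σ S)) := by
        funext i
        have e0 : (∑ j, c j • (X' j • Pi.single k (1 : MvPolynomial σ S) -
          X' k • Pi.single j (1 : MvPolynomial σ S)) : σ → MvPolynomial σ S) i =
            ∑ j, (c j * (X' j * (Pi.single k (1 : MvPolynomial σ S) : σ → MvPolynomial σ S) i) -
              c j * (X' k * (Pi.single j (1 : MvPolynomial σ S) : σ → MvPolynomial σ S) i)) := by
          rw [Finset.sum_apply]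
          apply Finset.sum_congr rfl
          intro j _
          simp [mul_sub]
        rw [Pi.add_apply, e0, Finset.sum_sub_distrib]
        have e1 : ∑ j, c j * (X' k * (Pi.single j (1 : MvPolynomial σ S) : σ → MvPolynomial σ S) i) =
            c i * X' k := by
          rw [Finset.sum_eq_single i]
          · simp
          · intro j _ hj
            simp [Ne.symm hj]
          · simp
        rw [e1]
        by_cases hi : i = k
        · subst hi
          simp only [hr', if_true, Pi.single_eq_same, mul_one, hck, zero_mul, sub_zero, zero_add]
          rw [hrk]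
        · have : ∀ j, c j * (X' j * (Pi.single k (1 : MvPolynomial σ S) : σ → MvPolynomial σ S) i) = 0 := by
            intro j
            simp [Pi.single_apply, hi]
          simp only [this, Finset.sum_const_zero, hr', hi, if_false]
          ring
      rw [hdiff]
      refine Submodule.add_mem _ (ih r' ?_ ?_) ?_
      · intro j hj
        simp only [hr']
        split_ifs with hjk
        · rfl
        · rw [hr j (by simp [hjk, hj]), hc j (by simpa using hj)]
          simp
      · have hkos : ∀ v ∈ koszul X', ∑ j, v j * X' j = 0 := by
          intro v hv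
          unfold koszul at hv
          induction hv using Submodule.span_induction with
          | mem x hx =>
            obtain ⟨i, j, rfl⟩ := hx
            simp only [Pi.sub_apply, Pi.smul_apply, smul_eq_mul, sub_mul, Finset.sum_sub_distrib]
            have a1 : ∀ a b : σ, ∑ x, X' b * (Pi.single a (1 : MvPolynomial σ S) : σ → MvPolynomial σ S) x * X' x =
                X' b * X' a := by
              intro a b
              rw [Finset.sum_eq_single a]
              · simp
              · intro x _ hx
                simp [hx]
              · simp
            rw [a1, a1]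
            ring
          | zero => simp
          | add x y _ _ h1 h2 => simp [add_mul, Finset.sum_add_distrib, h1, h2]
          | smul a x _ h1 =>
            simp only [Pi.smul_apply, smul_eq_mul, mul_assoc, ← Finset.mul_sum, h1, mul_zero]
        have hz := hkos (∑ j, c j • (X' j • Pi.single k (1 : MvPolynomial σ S) -
          X' k • Pi.single j (1 : MvPolynomial σ S)))
            (Submodule.sum_mem _ fun j _ => Submodule.smul_mem _ _ (koszul_gen X' k j))
        have hs : ∑ j, r j * X' j = 0 := hsum
        rw [hdiff] at hs
        simp only [Pi.add_apply, add_mul, Finset.sum_add_distrib] at hs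
        rw [hz, add_zero] at hs
        exact hs
      · exact Submodule.sum_mem _ fun j _ => Submodule.smul_mem _ _ (koszul_gen X' k j)
  intro r hr
  exact key Finset.univ r (by simp) hr

/-- transport of `KoszulExact` along an involution -/
theorem koszulExact_of_invol (u v : σ → R) (φ : R →+* R) (h : ∀ x, φ (φ x) = x)
    (huv : ∀ j, φ (v j) = u j) (hu : KoszulExact u) : KoszulExact v := by
  intro r hr
  have h1 : ∑ j, φ (r j) * u j = 0 := by
    have := congrArg φ hr
    rw [map_sum, map_zero] at this
    simpa [huv] using this
  have h2 := hu (fun j => φ (r j)) h1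
  have h3 : ∀ x ∈ koszul u, (fun j => φ (x j)) ∈ koszul v := by
    intro x hx
    unfold koszul at hx
    induction hx using Submodule.span_induction with
    | mem x hx =>
      obtain ⟨i, j, rfl⟩ := hx
      have hv : ∀ j, φ (u j) = v j := fun j => by rw [← huv, h]
      have : (fun l => φ ((u j • Pi.single i (1 : R) - u i • Pi.single j (1 : R) : σ → R) l)) =
          v j • Pi.single i (1 : R) - v i • Pi.single j (1 : R) := by
        funext l
        simp only [Pi.sub_apply, Pi.smul_apply, smul_eq_mul, map_sub, map_mul, hv,
          Pi.single_apply]
        split_ifs <;> simp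
      rw [this]
      exact koszul_gen v i j
    | zero =>
      have : (fun l => φ ((0 : σ → R) l)) = 0 := by funext l; simp
      rw [this]
      exact Submodule.zero_mem _
    | add x y _ _ h1 h2 =>
      have : (fun l => φ ((x + y) l)) = (fun l => φ (x l)) + (fun l => φ (y l)) := by
        funext l; simp
      rw [this]
      exact Submodule.add_mem _ h1 h2
    | smul a x _ h1 =>
      have : (fun l => φ ((a • x) l)) = φ a • (fun l => φ (x l)) := by
        funext l; simp
      rw [this]
      exact Submodule.smul_mem _ _ h1
  have h4 := h3 _ h2
  simpa [h] using h4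

end Pool.Agent.Helper56.Disc
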