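import Pool.Agent.Helper56.Disc.Core

namespace Pool.Agent.Helper56.Disc

open MvPolynomial Matrix Submodule

variable {n d : ℕ}

/-- coefficient vector of the Hessian -/
noncomputable def hv {R : Type*} [CommRing R] (c : Mon n d → R) : Mon n (n * (d - 2)) → R :=
  cv (hess (form c))

theorem hv_map {R S : Type*} [CommRing R] [CommRing S] (φ : R →+* S) (c : Mon n d → R)
    (γ : Mon n (n * (d - 2))) : φ (hv c γ) = hv (fun α => φ (c α)) γ := by
  unfold hv cv
  rw [← coeff_map, map_hess, map_form]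

theorem form_hv {R : Type*} [CommRing R] (c : Mon n d → R) : form (hv c) = hess (form c) :=
  form_cv _ (hess_isHomogeneous _ (form_isHomogeneous c))

theorem hv_notMem {a : ℕ} (hd : 2 ≤ d) (h : a + (d - 1) = n * (d - 2)) (c : Mon n d → ℂ)
    (hc : Nondegenerate (form c)) : hv c ∉ W (n * (d - 2)) a c := by
  intro hm
  have := form_mem_of_mem_W h c _ hm
  rw [form_hv] at this
  exact (socle_form hd c hc).1 this

theorem sub_smul_mem {a : ℕ} (h : a + (d - 1) = n * (d - 2)) (c : Mon n d → ℂ)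
    (x : Mon n (n * (d - 2)) → ℂ) (v : ℂ)
    (hv' : form x - C v * hess (form c) ∈ jacIdeal (form c)) :
    x - v • hv c ∈ W (n * (d - 2)) a c := by
  apply mem_W_of_form_mem h
  have : form (x - v • hv c) = form x - C v * hess (form c) := by
    have e1 : x - v • hv c = x + (-v) • hv c := by
      rw [neg_smul, sub_eq_add_neg]
    rw [e1, form_add, form_smul, form_hv, map_neg]
    ring
  rw [this]
  exact hv'

theorem mem_sup {a : ℕ} (hd : 2 ≤ d) (h : a + (d - 1) = n * (d - 2)) (c : Mon n d → ℂ)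
    (hc : Nondegenerate (form c)) (x : Mon n (n * (d - 2)) → ℂ) :
    x ∈ W (n * (d - 2)) a c ⊔ span ℂ {hv c} := by
  obtain ⟨v, hv'⟩ := (socle_form hd c hc).2 x
  have h1 := sub_smul_mem h c x v hv'
  rw [Submodule.mem_sup]
  exact ⟨_, h1, v • hv c, Submodule.smul_mem _ _ (Submodule.mem_span_singleton_self _), by simp⟩

theorem Lam_sub_smul {R : Type*} [CommRing R] {e a : ℕ} (α0 : Mon n e)
    (J : Mon n e → Fin n × Mon n a) (c : Mon n d → R) (x y : Mon n e → R) (v : R) :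
    Lam α0 J c (x - v • y) = Lam α0 J c x - v * Lam α0 J c y := by
  unfold Lam
  have : x - v • y = x + (-v) • y := by rw [neg_smul, sub_eq_add_neg]
  rw [this, det_updateRow_add, det_updateRow_smul]
  ring

theorem Lam_eq_zero {e a : ℕ} (α0 : Mon n e) (J : Mon n e → Fin n × Mon n a) (c : Mon n d → ℂ)
    (hW : W e a c ≠ ⊤) (x : Mon n e → ℂ) (hx : x ∈ W e a c) : Lam α0 J c x = 0 := by
  unfold Lam
  apply det_eq_zero_of_mem _ hW
  intro α
  by_cases h : α = α0
  · subst h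
    rw [updateRow_self]
    exact hx
  · rw [updateRow_ne h]
    exact subset_span ⟨J α, rfl⟩

theorem Lam_eq {a : ℕ} (hd : 2 ≤ d) (h : a + (d - 1) = n * (d - 2)) (α0 : Mon n (n * (d - 2)))
    (J : Mon n (n * (d - 2)) → Fin n × Mon n a) (c : Mon n d → ℂ)
    (hc : Nondegenerate (form c)) (x : Mon n (n * (d - 2)) → ℂ) (v : ℂ)
    (hv' : form x - C v * hess (form c) ∈ jacIdeal (form c)) :
    Lam α0 J c x = v * Lam α0 J c (hv c) := by
  have hW : W (n * (d - 2)) a c ≠ ⊤ := by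
    intro hT
    apply hv_notMem hd h c hc
    rw [hT]
    trivial
  have h1 := Lam_eq_zero α0 J c hW _ (sub_smul_mem h c x v hv')
  rw [Lam_sub_smul] at h1
  linear_combination h1

/-- the minors as polynomials -/
noncomputable def MM {a : ℕ} (α0 : Mon n (n * (d - 2)))
    (J : Mon n (n * (d - 2)) → Fin n × Mon n a) : MvPolynomial (Mon n d) ℂ :=
  Lam α0 J (fun α => X α) (hv fun α => X α)

theorem eval_MM {a : ℕ} (α0 : Mon n (n * (d - 2)))
    (J : Mon n (n * (d - 2)) → Fin n × Mon n a) (c : Mon n d → ℂ) :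
    eval c (MM α0 J) = Lam α0 J c (hv c) := by
  unfold MM
  rw [Lam_map]
  congr 1
  · funext α; simp
  · funext γ
    rw [hv_map]
    congr 1
    funext α; simp

/-- the minors with a constant row -/
noncomputable def LL {a : ℕ} (α0 : Mon n (n * (d - 2)))
    (J : Mon n (n * (d - 2)) → Fin n × Mon n a) (x : Mon n (n * (d - 2)) → ℂ) :
    MvPolynomial (Mon n d) ℂ :=
  Lam α0 J (fun α => X α) (fun γ => C (x γ))

theorem eval_LL {a : ℕ} (α0 : Mon n (n * (d - 2)))
    (J : Mon n (n * (d - 2)) → Fin n × Mon n a) (x : Mon n (n * (d - 2)) → ℂ)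
    (c : Mon n d → ℂ) : eval c (LL α0 J x) = Lam α0 J c x := by
  unfold LL
  rw [Lam_map]
  congr 1
  · funext α; simp
  · funext γ; simp

theorem exists_power (hn : 0 < n) {a : ℕ} (hd : 2 ≤ d) (h : a + (d - 1) = n * (d - 2))
    (α0 : Mon n (n * (d - 2))) [Nonempty (Mon n a)]
    (Δ : MvPolynomial (Mon n d) ℂ) (hΔ : IsDiscriminant Δ) :
    ∃ (k : ℕ) (A : (Mon n (n * (d - 2)) → Fin n × Mon n a) → MvPolynomial (Mon n d) ℂ),
      Δ ^ k = ∑ J, A J * MM α0 J := by
  classical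
  have : Nonempty (Fin n × Mon n a) := ⟨(⟨0, hn⟩, Classical.arbitrary _)⟩
  have hrad : Δ ∈ (Ideal.span (Set.range (fun J => MM (d := d) (a := a) α0 J))).radical := by
    rw [← vanishingIdeal_zeroLocus_eq_radical (K := ℂ), mem_vanishingIdeal_iff]
    intro c hc
    rw [zeroLocus_span] at hc
    rw [aeval_eq_eval]
    by_contra hne
    have hnd : Nondegenerate (form c) := by
      by_contra hnd
      exact hne ((hΔ.2 c).2 hnd)
    obtain ⟨J, hJ⟩ := exists_det_ne_zero (fun κ : Fin n × Mon n a =>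
      (row c κ : Mon n (n * (d - 2)) → ℂ)) (hv c) α0 (hv_notMem hd h c hnd) (mem_sup hd h c hnd)
    apply hJ
    have h1 := hc (MM α0 J) ⟨J, rfl⟩
    rw [aeval_eq_eval, eval_MM] at h1
    exact h1
  obtain ⟨k, hk⟩ := hrad
  rw [← Set.image_univ] at hk
  obtain ⟨A, _, hA⟩ := exists_coeffs_of_mem_span_image _ _ _ hk
  exact ⟨k, A, hA⟩

/-- The key divisibility argument. -/
theorem exists_extension (hn : 0 < n) {a : ℕ} (hd : 2 ≤ d) (h : a + (d - 1) = n * (d - 2))
    (α0 : Mon n (n * (d - 2))) [Nonempty (Mon n a)]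
    (Δ : MvPolynomial (Mon n d) ℂ) (hΔ : IsDiscriminant Δ)
    (J0 : Mon n (n * (d - 2)) → Fin n × Mon n a) (hJ0 : ¬ Δ ^ 2 ∣ MM α0 J0)
    (x : Mon n (n * (d - 2)) → ℂ) :
    ∃ P : MvPolynomial (Mon n d) ℂ, ∀ c : Mon n d → ℂ, Nondegenerate (form c) → ∀ v : ℂ,
      form x - C v * hess (form c) ∈ jacIdeal (form c) → eval c P = eval c Δ * v := by
  classical
  obtain ⟨k, A, hA⟩ := exists_power hn hd h α0 Δ hΔ
  have hΔ0 : Δ ≠ 0 := hΔ.1.ne_zero
  set Q := ∑ J, A J * LL α0 J x with hQ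
  have hQc : ∀ c : Mon n d → ℂ, Nondegenerate (form c) → ∀ v : ℂ,
      form x - C v * hess (form c) ∈ jacIdeal (form c) → eval c Q = eval c Δ ^ k * v := by
    intro c hc v hv'
    rw [← map_pow, hA, hQ, map_sum, map_sum, Finset.sum_mul]
    apply Finset.sum_congr rfl
    intro J _
    rw [map_mul, map_mul, eval_LL, eval_MM, Lam_eq hd h α0 J c hc x v hv']
    ring
  have hid : Δ ^ k * LL α0 J0 x = MM α0 J0 * Q := by
    have h1 : Δ * (Δ ^ k * LL α0 J0 x - MM α0 J0 * Q) = 0 := by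
      apply MvPolynomial.funext
      intro c
      rw [map_zero, map_mul]
      by_cases hc : Nondegenerate (form c)
      · obtain ⟨v, hv'⟩ := (socle_form hd c hc).2 x
        rw [map_sub, map_mul, map_mul, map_pow, hQc c hc v hv', eval_LL, eval_MM,
          Lam_eq hd h α0 J0 c hc x v hv']
        ring
      · rw [(hΔ.2 c).2 hc, zero_mul]
    rcases mul_eq_zero.1 h1 with h2 | h2
    · exact absurd h2 hΔ0
    · exact sub_eq_zero.1 h2
  obtain ⟨b, R, hb, hMR, hR⟩ : ∃ (b : ℕ) (R : MvPolynomial (Mon n d) ℂ), b ≤ 1 ∧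
      MM α0 J0 = Δ ^ b * R ∧ ¬ Δ ∣ R := by
    by_cases hdiv : Δ ∣ MM α0 J0
    · obtain ⟨R, hR⟩ := hdiv
      refine ⟨1, R, le_refl _, by rw [pow_one]; exact hR, ?_⟩
      rintro ⟨R', rfl⟩
      exact hJ0 ⟨R', by rw [hR]; ring⟩
    · exact ⟨0, MM α0 J0, by omega, by simp, hdiv⟩
  have hRdvd : R ∣ LL α0 J0 x := by
    have h1 : R ∣ Δ ^ k * LL α0 J0 x := by
      rw [hid, hMR]
      exact Dvd.intro_left (Δ ^ b) rfl |>.mul_right Q |> fun h => by
        simpa [mul_assoc] using h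
    have h2 : IsRelPrime Δ R := (hΔ.1.isRelPrime_iff_not_dvd).2 hR
    have h3 : IsRelPrime R (Δ ^ k) := (h2.pow_left).symm
    exact h3.dvd_of_dvd_mul_left h1
  obtain ⟨T, hT⟩ := hRdvd
  have hR0 : R ≠ 0 := by
    rintro rfl
    exact hR (dvd_zero _)
  have hkey : Δ ^ k * T = Δ ^ b * Q := by
    have h1 : R * (Δ ^ k * T) = R * (Δ ^ b * Q) := by
      have : Δ ^ k * (R * T) = Δ ^ b * R * Q := by rw [← hT, hid, hMR]
      linear_combination this
    exact mul_left_cancel₀ hR0 h1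
  refine ⟨Δ ^ (1 - b) * T, ?_⟩
  intro c hc v hv'
  have hΔc : eval c Δ ≠ 0 := fun h0 => ((hΔ.2 c).1 h0) hc
  have h1 := congrArg (eval c) hkey
  rw [map_mul, map_mul, map_pow, map_pow, hQc c hc v hv'] at h1
  have h2 : eval c T = eval c Δ ^ b * v := by
    have h3 : eval c Δ ^ k * eval c T = eval c Δ ^ k * (eval c Δ ^ b * v) := by
      rw [h1]; ring
    exact mul_left_cancel₀ (pow_ne_zero _ hΔc) h3
  rw [map_mul, map_pow, h2, ← mul_assoc, ← pow_add, Nat.sub_add_cancel hb, pow_one]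

end Pool.Agent.Helper56.Disc
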