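import Pool.Agent.Helper56.Disc.OnePar

namespace Pool.Agent.Helper56.Disc

open MvPolynomial

/-- the nodes: `0` and the roots of unity of order `m - 1` -/
noncomputable def ZZ (m : ℕ) : Finset ℂ := insert 0 (Polynomial.nthRootsFinset (m - 1) (1 : ℂ))

theorem mem_ZZ {m : ℕ} (hm : 2 ≤ m) (x : ℂ) : x ∈ ZZ m ↔ x = 0 ∨ x ^ (m - 1) = 1 := by
  unfold ZZ
  rw [Finset.mem_insert, Polynomial.mem_nthRootsFinset (by omega)]

theorem card_ZZ {m : ℕ} (hm : 2 ≤ m) : (ZZ m).card = m := by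
  unfold ZZ
  rw [Finset.card_insert_of_notMem]
  · have h : IsPrimitiveRoot (Complex.exp (2 * Real.pi * Complex.I / ((m - 1 : ℕ) : ℂ))) (m - 1) :=
      Complex.isPrimitiveRoot_exp (m - 1) (by omega)
    rw [h.card_nthRootsFinset]
    omega
  · rw [Polynomial.mem_nthRootsFinset (by omega)]
    rw [zero_pow (by omega)]
    norm_num

theorem pow_ZZ {m : ℕ} (hm : 2 ≤ m) {x : ℂ} (hx : x ∈ ZZ m) : x ^ m = x := by
  rcases (mem_ZZ hm x).1 hx with h | h
  · rw [h, zero_pow (by omega)]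
  · have : m = (m - 1) + 1 := by omega
    rw [this, pow_succ, h, one_mul]

/-- the Lagrange basis -/
noncomputable def ell (m : ℕ) (b : ℂ) : Polynomial ℂ := Lagrange.basis (ZZ m) id b

/-- the weights -/
noncomputable def wt (m : ℕ) (b : ℂ) : ℂ := (ell m b).coeff (m - 1)

theorem natDegree_ell {m : ℕ} (hm : 2 ≤ m) {b : ℂ} (hb : b ∈ ZZ m) :
    (ell m b).natDegree ≤ m - 1 := by
  have h := Lagrange.degree_basis (s := ZZ m) (v := id) (Function.injective_id.injOn) hb
  rw [card_ZZ hm] at h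
  unfold ell
  rw [Polynomial.natDegree_le_iff_degree_le, h]

theorem eval_ell {m : ℕ} {x b : ℂ} (hx : x ∈ ZZ m) (hb : b ∈ ZZ m) :
    (ell m b).eval x = if x = b then 1 else 0 := by
  unfold ell
  split_ifs with h
  · subst h
    exact Lagrange.eval_basis_self (Function.injective_id.injOn) hb
  · exact Lagrange.eval_basis_of_ne (v := id) (Ne.symm h) hx

theorem X_pow_eq_sum_ell {m : ℕ} (hm : 2 ≤ m) (r : ℕ) (hr : r ≤ m - 1) :
    (Polynomial.X : Polynomial ℂ) ^ r = ∑ b ∈ ZZ m, Polynomial.C (b ^ r) * ell m b := by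
  have h := Lagrange.eq_interpolate (s := ZZ m) (v := id) (f := (Polynomial.X : Polynomial ℂ) ^ r)
    (Function.injective_id.injOn) (by
      rw [Polynomial.degree_X_pow, card_ZZ hm]
      exact_mod_cast (by omega : r < m))
  rw [Lagrange.interpolate_apply] at h
  simpa [ell] using h

theorem sum_wt {m : ℕ} (hm : 2 ≤ m) (r : ℕ) (hr : r ≤ m - 1) :
    ∑ b ∈ ZZ m, b ^ r * wt m b = if r = m - 1 then 1 else 0 := by
  have h := congrArg (fun p => Polynomial.coeff p (m - 1)) (X_pow_eq_sum_ell hm r hr)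
  simp only [Polynomial.coeff_X_pow, Polynomial.finsetSum_coeff, Polynomial.coeff_C_mul] at h
  unfold wt
  rw [← h]
  by_cases hr' : r = m - 1
  · simp [hr']
  · simp [hr', Ne.symm hr']

theorem zero_mem_ZZ {m : ℕ} : (0 : ℂ) ∈ ZZ m := Finset.mem_insert_self _ _

theorem wt_zero {m : ℕ} (hm : 2 ≤ m) : wt m 0 = -1 := by
  have h1 := sum_wt hm 0 (by omega)
  have h2 := sum_wt hm (m - 1) le_rfl
  rw [if_neg (by omega)] at h1
  rw [if_pos rfl] at h2
  rw [← Finset.add_sum_erase _ _ (zero_mem_ZZ (m := m))] at h1 h2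
  rw [zero_pow (by omega)] at h2
  have h3 : ∑ x ∈ (ZZ m).erase 0, x ^ (m - 1) * wt m x = ∑ x ∈ (ZZ m).erase 0, x ^ 0 * wt m x := by
    apply Finset.sum_congr rfl
    intro x hx
    rw [Finset.mem_erase] at hx
    rcases (mem_ZZ hm x).1 hx.2 with h | h
    · exact absurd h hx.1
    · rw [h, pow_zero]
  rw [h3] at h2
  simp only [pow_zero, one_mul, zero_mul, zero_add] at h1 h2
  rw [h2] at h1
  linear_combination h1

/-- homogenization in two variables -/
noncomputable def hmg {R : Type*} [CommRing R] [Algebra ℂ R] (m : ℕ) (y z : R)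
    (p : Polynomial ℂ) : R :=
  ∑ j ∈ Finset.range m, algebraMap ℂ R (p.coeff j) * y ^ j * z ^ (m - 1 - j)

section
variable {R : Type*} [CommRing R] [Algebra ℂ R] (m : ℕ) (y z : R)

theorem hmg_sum {ι : Type*} (s : Finset ι) (c : ι → ℂ) (p : ι → Polynomial ℂ) :
    hmg m y z (∑ b ∈ s, Polynomial.C (c b) * p b) = ∑ b ∈ s, algebraMap ℂ R (c b) * hmg m y z (p b) := by
  unfold hmg
  simp only [Polynomial.finsetSum_coeff, Polynomial.coeff_C_mul, map_sum, map_mul,
    Finset.sum_mul, Finset.mul_sum]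
  rw [Finset.sum_comm]
  apply Finset.sum_congr rfl
  intro b _
  apply Finset.sum_congr rfl
  intro j _
  ring

theorem hmg_X_pow (r : ℕ) (hr : r ≤ m - 1) (hm : 2 ≤ m) :
    hmg m y z (Polynomial.X ^ r) = y ^ r * z ^ (m - 1 - r) := by
  unfold hmg
  rw [Finset.sum_eq_single r]
  · simp
  · intro j _ hj
    rw [Polynomial.coeff_X_pow, if_neg hj]
    simp
  · intro h
    exfalso
    apply h
    rw [Finset.mem_range]
    omega

theorem hmg_identity (r : ℕ) (hr : r ≤ m - 1) (hm : 2 ≤ m) :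
    y ^ r * z ^ (m - 1 - r) = ∑ b ∈ ZZ m, algebraMap ℂ R (b ^ r) * hmg m y z (ell m b) := by
  rw [← hmg_X_pow m y z r hr hm, X_pow_eq_sum_ell hm r hr, hmg_sum]

end

theorem hmg_eval {m : ℕ} (hm : 2 ≤ m) (y : ℂ) (p : Polynomial ℂ) (hp : p.natDegree ≤ m - 1) :
    hmg m y 1 p = p.eval y := by
  unfold hmg
  rw [Polynomial.eval_eq_sum_range' (n := m) (by omega)]
  apply Finset.sum_congr rfl
  intro j _
  simp

end Pool.Agent.Helper56.Disc
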