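import Pool.Agent.Helper56.Disc.Assoc

namespace Pool.Agent.Helper56.Disc

open MvPolynomial Matrix Submodule Filter Topology

variable {n d : ℕ}

/-- restriction of a polynomial to a line -/
noncomputable def lineP {ι : Type*} (c e : ι → ℂ) : MvPolynomial ι ℂ →+* Polynomial ℂ :=
  (aeval (R := ℂ) (fun γ => Polynomial.C (c γ) + Polynomial.X * Polynomial.C (e γ))).toRingHom

theorem eval_lineP {ι : Type*} (c e : ι → ℂ) (t : ℂ) (p : MvPolynomial ι ℂ) :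
    (lineP c e p).eval t = eval (c + t • e) p := by
  have : ((Polynomial.evalRingHom t).comp (lineP c e)) = eval (c + t • e) := by
    apply MvPolynomial.ringHom_ext
    · intro r
      simp [lineP]
    · intro i
      simp [lineP]
      ring
  exact congrArg (fun f : _ →+* _ => f p) this

theorem exists_minor (hn : 0 < n) {a : ℕ} (hd : 2 ≤ d) (h : a + (d - 1) = n * (d - 2))
    (α0 : Mon n (n * (d - 2))) [Nonempty (Mon n a)]
    (Δ : MvPolynomial (Mon n d) ℂ) (hΔ : IsDiscriminant Δ)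
    (c0 e0 : Mon n d → ℂ) (x0 : Mon n (n * (d - 2)) → ℂ) (hdeg : ¬ Nondegenerate (form c0))
    (h1 : x0 ∉ W (n * (d - 2)) a c0)
    (h2 : ∀ x, x ∈ W (n * (d - 2)) a c0 ⊔ span ℂ {x0}) (v : ℂ → ℂ) (L : ℂ)
    (hv' : ∀ᶠ t in 𝓝[≠] (0 : ℂ), Nondegenerate (form (c0 + t • e0)) ∧
      ∀ v', form x0 - C v' * hess (form (c0 + t • e0)) ∈ jacIdeal (form (c0 + t • e0)) → v' = v t)
    (hlim : Tendsto (fun t => t * v t) (𝓝[≠] (0 : ℂ)) (𝓝 L)) :
    ∃ J0 : Mon n (n * (d - 2)) → Fin n × Mon n a, ¬ Δ ^ 2 ∣ MM α0 J0 := by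
  classical
  have : Nonempty (Fin n × Mon n a) := ⟨(⟨0, hn⟩, Classical.arbitrary _)⟩
  obtain ⟨J0, hJ0⟩ := exists_det_ne_zero (fun κ : Fin n × Mon n a =>
      (row c0 κ : Mon n (n * (d - 2)) → ℂ)) x0 α0 h1 h2
  refine ⟨J0, ?_⟩
  rintro ⟨R, hR⟩
  have hL0 : Lam α0 J0 c0 x0 ≠ 0 := hJ0
  obtain ⟨D, hD⟩ : Polynomial.X ∣ lineP c0 e0 Δ := by
    rw [Polynomial.X_dvd_iff, Polynomial.coeff_zero_eq_eval_zero, eval_lineP]
    have : c0 + (0 : ℂ) • e0 = c0 := by simp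
    rw [this]
    exact (hΔ.2 c0).2 hdeg
  have hΔt : ∀ t, eval (c0 + t • e0) Δ = t * D.eval t := by
    intro t
    rw [← eval_lineP, hD]
    simp
  have heq : ∀ᶠ t in 𝓝[≠] (0 : ℂ), (lineP c0 e0 (LL α0 J0 x0)).eval t =
      t * (t * v t) * (D.eval t) ^ 2 * (lineP c0 e0 R).eval t := by
    filter_upwards [hv'] with t ht
    obtain ⟨hnd, huniq⟩ := ht
    obtain ⟨v', hvv⟩ := (socle_form hd (c0 + t • e0) hnd).2 x0
    have e1 := Lam_eq hd h α0 J0 (c0 + t • e0) hnd x0 v' hvv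
    rw [eval_lineP, eval_LL, e1, ← eval_MM, hR, map_mul, map_pow, hΔt, huniq v' hvv, eval_lineP]
    ring
  have hl1 : Tendsto (fun t => (lineP c0 e0 (LL α0 J0 x0)).eval t) (𝓝[≠] (0 : ℂ))
      (𝓝 ((lineP c0 e0 (LL α0 J0 x0)).eval 0)) :=
    ((lineP c0 e0 (LL α0 J0 x0)).continuous.tendsto 0).mono_left nhdsWithin_le_nhds
  have hl2 : Tendsto (fun t => t * (t * v t) * (D.eval t) ^ 2 * (lineP c0 e0 R).eval t)
      (𝓝[≠] (0 : ℂ)) (𝓝 (0 * L * (D.eval 0) ^ 2 * (lineP c0 e0 R).eval 0)) := by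
    refine Tendsto.mul (Tendsto.mul (Tendsto.mul ?_ hlim) ?_) ?_
    · exact tendsto_id.mono_left nhdsWithin_le_nhds
    · exact ((D.continuous.tendsto 0).mono_left nhdsWithin_le_nhds).pow 2
    · exact ((lineP c0 e0 R).continuous.tendsto 0).mono_left nhdsWithin_le_nhds
  have hl3 := tendsto_nhds_unique (hl1.congr' heq) hl2
  rw [eval_lineP, eval_LL] at hl3
  have : c0 + (0 : ℂ) • e0 = c0 := by simp
  rw [this] at hl3
  apply hL0
  rw [hl3]
  ring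

end Pool.Agent.Helper56.Disc
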