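import Pool.Agent.Helper56.Disc.Bezout

namespace Pool.Agent.Helper56.Disc

open Matrix MvPolynomial

section hom

variable {R : Type*} [CommRing R] {σ : Type*}

theorem homogeneousComponent_mul_of_isHomogeneous (p F : MvPolynomial σ R) (a m : ℕ)
    (hF : F.IsHomogeneous m) :
    homogeneousComponent (a + m) (p * F) = homogeneousComponent a p * F := by
  conv_lhs => rw [← sum_homogeneousComponent p]
  rw [Finset.sum_mul, map_sum]
  have h : ∀ i, homogeneousComponent (a + m) (homogeneousComponent i p * F) =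
      if a = i then homogeneousComponent i p * F else 0 := by
    intro i
    have h1 : (homogeneousComponent i p * F).IsHomogeneous (i + m) :=
      (homogeneousComponent_isHomogeneous i p).mul hF
    rw [homogeneousComponent_of_mem h1]
    by_cases hi : a = i
    · simp [hi]
    · rw [if_neg hi, if_neg (by omega)]
  simp only [h]
  rw [Finset.sum_ite_eq]
  split_ifs with ha
  · rfl
  · rw [homogeneousComponent_eq_zero, zero_mul]
    rw [Finset.mem_range] at ha
    omega

theorem degree_of_isHomogeneous {p : MvPolynomial σ R} {a : ℕ} (hp : p.IsHomogeneous a)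
    {x : σ →₀ ℕ} (hx : coeff x p ≠ 0) : x.degree = a := by
  have h1 : (Finsupp.weight (1 : σ → ℕ)) x = a := hp hx
  have h2 := DFunLike.congr_fun (Finsupp.degree_eq_weight_one (σ := σ) (R := ℕ)) x
  rw [h2]
  exact h1

theorem exists_homogeneous_coeffs [Fintype σ] (F : σ → MvPolynomial σ R) (m a : ℕ)
    (hF : ∀ i, (F i).IsHomogeneous m) (g : MvPolynomial σ R) (hg : g.IsHomogeneous (a + m))
    (hmem : g ∈ Ideal.span (Set.range F)) :
    ∃ p : σ → MvPolynomial σ R, (∀ i, (p i).IsHomogeneous a) ∧ g = ∑ i, p i * F i := by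
  classical
  rw [← Set.image_univ] at hmem
  obtain ⟨c, _, hc⟩ := exists_coeffs_of_mem_span_image _ _ _ hmem
  refine ⟨fun i => homogeneousComponent a (c i), fun i => homogeneousComponent_isHomogeneous _ _, ?_⟩
  conv_lhs => rw [← homogeneousComponent_eq_self hg, hc, map_sum]
  apply Finset.sum_congr rfl
  intro i _
  exact homogeneousComponent_mul_of_isHomogeneous _ _ _ _ (hF i)

end hom

variable {k : Type*} [Field k] {σ : Type*} [Fintype σ] [DecidableEq σ]

omit [DecidableEq σ] in
theorem exists_pow_mem [IsAlgClosed k] (F : σ → MvPolynomial σ k)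
    (hz : ∀ z : σ → k, (∀ i, eval z (F i) = 0) → z = 0) :
    ∃ K : ℕ, ∀ K' ≥ K, ∀ l, (X l) ^ K' ∈ Ideal.span (Set.range F) := by
  have h1 : ∀ l : σ, ∃ K : ℕ, (X l : MvPolynomial σ k) ^ K ∈ Ideal.span (Set.range F) := by
    intro l
    have : (X l : MvPolynomial σ k) ∈ (Ideal.span (Set.range F)).radical := by
      rw [← vanishingIdeal_zeroLocus_eq_radical (K := k), mem_vanishingIdeal_iff]
      intro x hx
      rw [zeroLocus_span] at hx
      have hx0 : x = 0 := by
        apply hz
        intro i
        have := hx (F i) ⟨i, rfl⟩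
        simpa [aeval_eq_eval] using this
      simp [hx0]
    exact this
  choose K hK using h1
  refine ⟨Finset.univ.sup K, fun K' hK' l => ?_⟩
  have h2 : K l ≤ K' := (Finset.le_sup (Finset.mem_univ l)).trans hK'
  rw [← Nat.sub_add_cancel h2, pow_add]
  exact Ideal.mul_mem_left _ _ (hK l)

/-- In the socle degree everything is a multiple of one element. -/
theorem exists_socle [IsAlgClosed k] (F : σ → MvPolynomial σ k) (m : ℕ) (hm : 1 ≤ m)
    (hF : ∀ i, (F i).IsHomogeneous m)
    (hz : ∀ z : σ → k, (∀ i, eval z (F i) = 0) → z = 0) :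
    ∃ (K : ℕ) (B : Matrix σ σ (MvPolynomial σ k)) (θ : MvPolynomial σ k), 0 < K ∧
      (∀ l, (X l) ^ K = ∑ i, B l i * F i) ∧
      ∀ g : MvPolynomial σ k, g.IsHomogeneous (Fintype.card σ * (m - 1)) →
        ∃ c : k, g - C c * θ ∈ Ideal.span (Set.range F) := by
  obtain ⟨K₀, hK₀⟩ := exists_pow_mem F hz
  set K := K₀ + m with hKdef
  have hKm : m ≤ K := by omega
  have hmem : ∀ l, (X l) ^ K ∈ Ideal.span (Set.range F) := hK₀ K (by omega)
  have hcoef : ∀ l : σ, ∃ p : σ → MvPolynomial σ k, (∀ i, (p i).IsHomogeneous (K - m)) ∧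
      (X l) ^ K = ∑ i, p i * F i := by
    intro l
    apply exists_homogeneous_coeffs F m (K - m) hF _ _ (hmem l)
    rw [Nat.sub_add_cancel hKm]
    exact isHomogeneous_X_pow l K
  choose B hBh hB using hcoef
  obtain ⟨Θ, hΘ⟩ := bezout F K (Matrix.of B) hB
  refine ⟨K, Matrix.of B, coeff 0 Θ, by omega, hB, ?_⟩
  intro g hg
  set κ : σ →₀ ℕ := Finsupp.equivFunOnFinite.symm (fun _ => K - 1) with hκdef
  have hκ : ∀ l, κ l = K - 1 := fun l => rfl
  set Bd := (Matrix.of B).det with hBd
  have hBdh : Bd.IsHomogeneous (Fintype.card σ * (K - m)) := by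
    rw [hBd, det_apply]
    refine IsHomogeneous.sum _ _ _ fun τ _ => ?_
    have h1 : (∏ i, (Matrix.of B) (τ i) i).IsHomogeneous (∑ _i : σ, (K - m)) :=
      IsHomogeneous.prod _ _ _ fun i _ => hBh _ _
    rw [Finset.sum_const, Finset.card_univ, smul_eq_mul] at h1
    rcases Int.units_eq_one_or (Equiv.Perm.sign τ) with h | h
    · rw [h, one_smul]; exact h1
    · rw [h]
      have : ((-1 : ℤˣ) • ∏ i, (Matrix.of B) (τ i) i) = - ∏ i, (Matrix.of B) (τ i) i := by
        simp [Units.smul_def]
      rw [this]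
      exact h1.neg
  have hdeg : (g * Bd).IsHomogeneous κ.degree := by
    have h1 := hg.mul hBdh
    have : Fintype.card σ * (m - 1) + Fintype.card σ * (K - m) = κ.degree := by
      rw [← mul_add]
      have h2 : κ.degree = ∑ l : σ, κ l := by
        rw [Finsupp.degree_apply]
        apply Finset.sum_subset (Finset.subset_univ _)
        intro x _ hx
        simpa using hx
      rw [h2]
      simp only [hκ, Finset.sum_const, Finset.card_univ, smul_eq_mul]
      congr 1
      omega
    rwa [this] at h1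
  refine ⟨coeff κ (g * Bd), ?_⟩
  -- the main identity
  have e1 : coeff κ (map C (g * Bd) * Θ) = C (coeff κ (g * Bd)) * coeff 0 Θ := by
    rw [coeff_mul, Finset.sum_eq_single (κ, 0)]
    · rw [coeff_map]
    · rintro ⟨x, y⟩ hxy hne
      rw [Finset.HasAntidiagonal.mem_antidiagonal] at hxy
      rw [coeff_map]
      have : coeff x (g * Bd) = 0 := by
        by_contra h
        have h1 := degree_of_isHomogeneous hdeg h
        have h2 : κ.degree = x.degree + y.degree := by
          rw [← hxy]; exact map_add Finsupp.degree x y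
        have h3 : y.degree = 0 := by omega
        have h4 : y = 0 := by
          rwa [Finsupp.degree_eq_zero_iff] at h3
        apply hne
        simp only at hxy
        rw [h4, add_zero] at hxy
        rw [h4, hxy]
      rw [this, map_zero, zero_mul]
    · intro h
      exfalso
      apply h
      rw [Finset.HasAntidiagonal.mem_antidiagonal]
      simp
  have e2 := coeff_mul_thetaW K (by omega) κ hκ g
  -- coefficient of elements of the ideal
  have e3 : ∀ x ∈ Ideal.span (Set.range (fun i => (C (F i) : MvPolynomial σ (MvPolynomial σ k)))) ⊔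
      Ideal.span (Set.range (fun l : σ => (X l : MvPolynomial σ (MvPolynomial σ k)) ^ K)),
      ∀ y, coeff κ (y * x) ∈ Ideal.span (Set.range F) := by
    intro x hx y
    obtain ⟨a, ha, b, hb, rfl⟩ := Submodule.mem_sup.1 hx
    rw [mul_add, coeff_add]
    refine Ideal.add_mem _ ?_ ?_
    · have h1 : (Ideal.span (Set.range F)).map (C : MvPolynomial σ k →+* _) =
          Ideal.span (Set.range (fun i => (C (F i) : MvPolynomial σ (MvPolynomial σ k)))) := by
        rw [Ideal.map_span, ← Set.range_comp]
        rfl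
      have h2 : y * a ∈ (Ideal.span (Set.range F)).map
          (C : MvPolynomial σ k →+* MvPolynomial σ (MvPolynomial σ k)) := by
        rw [h1]
        exact Ideal.mul_mem_left _ _ ha
      rw [MvPolynomial.mem_map_C_iff] at h2
      exact h2 κ
    · have h2 : coeff κ (y * b) = 0 := by
        rw [← Set.image_univ] at hb
        obtain ⟨c, _, hc⟩ := exists_coeffs_of_mem_span_image _ _ _ hb
        rw [hc, Finset.mul_sum, coeff_sum]
        apply Finset.sum_eq_zero
        intro l _
        rw [← mul_assoc, X_pow_eq_monomial, coeff_mul_monomial', if_neg]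
        intro h
        have := h l
        rw [hκ, Finsupp.single_eq_same] at this
        omega
      rw [h2]
      exact Ideal.zero_mem _
  have e4 := e3 _ hΘ (map C g)
  rw [mul_sub, ← mul_assoc, ← map_mul, coeff_sub, e1] at e4
  have hwF : Ideal.span (Set.range (fun l : σ => (X l : MvPolynomial σ k) ^ K)) ≤
      Ideal.span (Set.range F) := by
    rw [Ideal.span_le]
    rintro _ ⟨l, rfl⟩
    exact hmem l
  have e5 := Ideal.sub_mem _ e4 (hwF e2)
  convert e5 using 1
  ring

/-- the Jacobian matrix -/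
noncomputable def jacM (F : σ → MvPolynomial σ k) : Matrix σ σ (MvPolynomial σ k) :=
  Matrix.of fun i j => pderiv j (F i)

omit [DecidableEq σ] in
theorem jacM_mulVec (F : σ → MvPolynomial σ k) (m : ℕ) (hF : ∀ i, (F i).IsHomogeneous m) :
    (jacM F).mulVec X = fun i => C (m : k) * F i := by
  funext i
  have := (hF i).sum_X_mul_pderiv
  simp only [jacM, mulVec, dotProduct, of_apply]
  rw [nsmul_eq_mul] at this
  rw [map_natCast, ← this]
  apply Finset.sum_congr rfl
  intro j _
  ring

theorem jac_notMem (F : σ → MvPolynomial σ k) (m : ℕ) (hm : (m : k) ≠ 0)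
    (hF : ∀ i, (F i).IsHomogeneous m) (K : ℕ) (hK : 0 < K) (B : Matrix σ σ (MvPolynomial σ k))
    (hB : ∀ l, (X l) ^ K = ∑ i, B l i * F i) :
    (jacM F).det ∉ Ideal.span (Set.range F) := by
  intro hmem
  set w : σ → MvPolynomial σ k := fun l => C (m : k) * X l ^ K with hw
  have hBF : B.mulVec F = fun l => X l ^ K := by
    funext l
    rw [hB l]; rfl
  have h1 : (B * jacM F).mulVec X = w := by
    rw [← mulVec_mulVec, jacM_mulVec F m hF]
    have : (fun i => C (m : k) * F i) = (C (m : k) : MvPolynomial σ k) • F := by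
      funext i; simp
    rw [this, mulVec_smul, hBF]
    rfl
  have h2 : (diagonal (fun l : σ => C (m : k) * (X l : MvPolynomial σ k) ^ (K - 1))).mulVec X = w := by
    funext l
    rw [mulVec_diagonal, hw, mul_assoc, ← pow_succ, Nat.sub_add_cancel hK]
  have h3 := det_congr_of_mulVec _ (koszulExact_X k) _ _ w h2 h1
  set I := Ideal.span (Set.range (fun l : σ => (X l : MvPolynomial σ k) ^ K)) with hI
  have hwI : Ideal.span (Set.range w) ≤ I := by
    rw [Ideal.span_le]
    rintro _ ⟨l, rfl⟩
    exact Ideal.mul_mem_left _ _ (Ideal.subset_span ⟨l, rfl⟩)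
  have h4 : (B * jacM F).det ∈ I := by
    rw [det_mul]
    have h5 : ∀ i, B.det * F i ∈ I := by
      intro i
      have h6 : (B.adjugate * B).mulVec F = (B.det • (1 : Matrix σ σ (MvPolynomial σ k))).mulVec F := by
        rw [adjugate_mul]
      rw [← mulVec_mulVec, smul_mulVec, one_mulVec, hBF] at h6
      have h7 := congrFun h6 i
      rw [Pi.smul_apply, smul_eq_mul] at h7
      rw [← h7]
      exact Ideal.sum_mem _ fun l _ => Ideal.mul_mem_left _ _ (Ideal.subset_span ⟨l, rfl⟩)
    have h8 : ∀ x ∈ Ideal.span (Set.range F), B.det * x ∈ I := by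
      intro x hx
      rw [← Set.image_univ] at hx
      obtain ⟨c, _, hc⟩ := exists_coeffs_of_mem_span_image _ _ _ hx
      rw [hc, Finset.mul_sum]
      refine Ideal.sum_mem _ fun i _ => ?_
      rw [mul_left_comm]
      exact Ideal.mul_mem_left _ _ (h5 i)
    exact h8 _ hmem
  have h9 : (diagonal (fun l : σ => C (m : k) * (X l : MvPolynomial σ k) ^ (K - 1))).det ∈ I := by
    have := Ideal.add_mem _ (hwI h3) h4
    simpa using this
  rw [det_diagonal] at h9
  set κ : σ →₀ ℕ := Finsupp.equivFunOnFinite.symm (fun _ => K - 1) with hκ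
  have h10 : ∏ l : σ, (C (m : k) * (X l : MvPolynomial σ k) ^ (K - 1)) =
      monomial κ ((m : k) ^ Fintype.card σ) := by
    rw [Finset.prod_mul_distrib, Finset.prod_const, Finset.card_univ, ← map_pow, monomial_eq,
      Finsupp.prod_fintype _ _ (by simp)]
    rfl
  rw [h10] at h9
  have h11 : I = Ideal.span ((fun s : σ →₀ ℕ => monomial s (1 : k)) ''
      (Set.range (fun l : σ => Finsupp.single l K))) := by
    rw [hI, ← Set.range_comp]
    congr 1
    ext x
    simp [X_pow_eq_monomial]
  rw [h11, mem_ideal_span_monomial_image] at h9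
  obtain ⟨s, ⟨l, rfl⟩, hs⟩ := h9 κ (by
    rw [mem_support_iff, coeff_monomial, if_pos rfl]
    exact pow_ne_zero _ hm)
  have := hs l
  simp [hκ] at this
  omega

/-- The socle theorem: for forms of degree `m` without common zero the Jacobian spans the degree
`n (m - 1)` part modulo the ideal and is not in the ideal. -/
theorem socle [IsAlgClosed k] (F : σ → MvPolynomial σ k) (m : ℕ) (hm : (m : k) ≠ 0)
    (hF : ∀ i, (F i).IsHomogeneous m)
    (hz : ∀ z : σ → k, (∀ i, eval z (F i) = 0) → z = 0) :
    (jacM F).det ∉ Ideal.span (Set.range F) ∧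
    ∀ g : MvPolynomial σ k, g.IsHomogeneous (Fintype.card σ * (m - 1)) →
        ∃ c : k, g - C c * (jacM F).det ∈ Ideal.span (Set.range F) := by
  have hm1 : 1 ≤ m := by
    rcases Nat.eq_zero_or_pos m with h | h
    · rw [h] at hm; simp at hm
    · exact h
  obtain ⟨K, B, θ, hK, hB, hθ⟩ := exists_socle F m hm1 hF hz
  have h1 := jac_notMem F m hm hF K hK B hB
  refine ⟨h1, fun g hg => ?_⟩
  have hJ : (jacM F).det.IsHomogeneous (Fintype.card σ * (m - 1)) := by
    rw [det_apply]
    refine IsHomogeneous.sum _ _ _ fun τ _ => ?_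
    have h1 : (∏ i, (jacM F) (τ i) i).IsHomogeneous (∑ _i : σ, (m - 1)) :=
      IsHomogeneous.prod _ _ _ fun i _ => (hF _).pderiv
    rw [Finset.sum_const, Finset.card_univ, smul_eq_mul] at h1
    rcases Int.units_eq_one_or (Equiv.Perm.sign τ) with h | h
    · rw [h, one_smul]; exact h1
    · rw [h]
      have : ((-1 : ℤˣ) • ∏ i, (jacM F) (τ i) i) = - ∏ i, (jacM F) (τ i) i := by
        simp [Units.smul_def]
      rw [this]
      exact h1.neg
  obtain ⟨c₁, hc₁⟩ := hθ _ hJ
  obtain ⟨c₂, hc₂⟩ := hθ _ hg
  have hc₁0 : c₁ ≠ 0 := by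
    rintro rfl
    rw [map_zero, zero_mul, sub_zero] at hc₁
    exact h1 hc₁
  refine ⟨c₂ / c₁, ?_⟩
  have h2 := Ideal.sub_mem _ hc₂ (Ideal.mul_mem_left _ (C (c₂ / c₁)) hc₁)
  convert h2 using 1
  have : (C c₂ : MvPolynomial σ k) = C (c₂ / c₁) * C c₁ := by
    rw [← map_mul]; congr 1; field_simp
  rw [this]
  ring

end Pool.Agent.Helper56.Disc
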